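import Pool.Agent.Q298.PL.Bas

/-! Job PL-PA. -/

set_option autoImplicit false

open scoped BigOperators Matrix
open Finset Pool.Agent.TH235.PP Pool.Agent.Q234.PL

namespace Pool.Agent.Q298.PL.PA

open Pool.Agent.Q298.PL

variable {N : ℕ}

/-- the form is linear -/
lemma qf_sub (M M' : Matrix (Fin (N + 1)) (Fin (N + 1)) ℝ) : qf (M - M') = qf M - qf M' := by
  unfold qf qfo
  rw [← Finset.sum_sub_distrib]
  refine Finset.sum_congr rfl fun j _ => ?_
  rw [← Finset.sum_sub_distrib]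
  refine Finset.sum_congr rfl fun l _ => ?_
  rw [← sub_smul, Matrix.sub_apply]
  congr 1
  push_cast
  ring

lemma qf_smul (c : ℝ) (M : Matrix (Fin (N + 1)) (Fin (N + 1)) ℝ) :
    qf (c • M) = (c : ℂ) • qf M := by
  unfold qf qfo
  rw [Finset.smul_sum]
  refine Finset.sum_congr rfl fun j _ => ?_
  rw [Finset.smul_sum]
  refine Finset.sum_congr rfl fun l _ => ?_
  rw [smul_smul, Matrix.smul_apply]
  congr 1
  rw [smul_eq_mul]
  push_cast
  ring

lemma po_comm (h : JW) (M : Matrix (Fin (N + 1)) (Fin (N + 1)) ℝ) :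
    Po * qf M = qf M * Po := by
  obtain ⟨hM, hPh, hPP, hA, hB⟩ := h N
  unfold qf qfo
  rw [Finset.mul_sum, Finset.sum_mul]
  refine Finset.sum_congr rfl fun j _ => ?_
  rw [Finset.mul_sum, Finset.sum_mul]
  refine Finset.sum_congr rfl fun l _ => ?_
  rw [Matrix.mul_smul, Matrix.smul_mul]
  congr 1
  calc Po * (Ao j * Bo l) = (Po * Ao j) * Bo l := by rw [mul_assoc]
    _ = -(Ao j * (Po * Bo l)) := by rw [hA]; simp only [neg_mul, mul_assoc]
    _ = Ao j * Bo l * Po := by rw [hB]; simp only [mul_neg, neg_neg, mul_assoc]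

/-- Two ground states -/
lemma prop_of_ground {n : Type} [Fintype n] {H : Matrix n n ℂ} {E Δ : ℝ} {Ψ φ : n → ℂ}
    (hΔ : 0 < Δ) (h : IsGround H E Δ Ψ) (hφ : normSq φ = 1) (hE : (ip φ (H *ᵥ φ)).re ≤ E) :
    φ = ip Ψ φ • Ψ ∧ 1 ≤ ‖ip Ψ φ‖ ^ 2 := by
  have h1 := h.2.2 φ
  rw [hφ] at h1
  have h2 : 1 ≤ ‖ip Ψ φ‖ ^ 2 := by
    by_contra hcon
    push Not at hcon
    have : 0 < Δ * (1 - ‖ip Ψ φ‖ ^ 2) := mul_pos hΔ (by linarith)
    linarith
  have h3 := normSq_sub_proj h.1 φ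
  have h4 := normSq_nonneg (φ - ip Ψ φ • Ψ)
  have h5 : normSq (φ - ip Ψ φ • Ψ) = 0 := by linarith
  exact ⟨sub_eq_zero.mp (normSq_eq_zero h5), h2⟩

lemma po_ground (h : JW) {M : Matrix (Fin (N + 1)) (Fin (N + 1)) ℝ} {E Δ : ℝ} {Ψ : Cf N → ℂ}
    (hΔ : 0 < Δ) (hG : IsGround (qf M) E Δ Ψ) : Po *ᵥ Ψ = Ψ ∨ Po *ᵥ Ψ = -Ψ := by
  obtain ⟨hM, hPh, hPP, hA, hB⟩ := h N
  have h1 : normSq (Po *ᵥ Ψ) = 1 := by
    rw [normSq_of_isom (by rw [hPh.eq, hPP]), hG.1]
  have h2 : (ip (Po *ᵥ Ψ) (qf M *ᵥ (Po *ᵥ Ψ))).re ≤ E := by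
    rw [Matrix.mulVec_mulVec, ← po_comm h, ← Matrix.mulVec_mulVec, hG.2.1, Matrix.mulVec_smul,
      ip_smul_right, Complex.re_ofReal_mul, re_ip_self, h1, mul_one]
  obtain ⟨h3, h4⟩ := prop_of_ground hΔ hG h1 h2
  set c := ip Ψ (Po *ᵥ Ψ) with hc
  have h5 : Ψ = (c * c) • Ψ := by
    calc Ψ = Po *ᵥ (Po *ᵥ Ψ) := by rw [Matrix.mulVec_mulVec, hPP, Matrix.one_mulVec]
      _ = Po *ᵥ (c • Ψ) := by rw [← h3]
      _ = c • (Po *ᵥ Ψ) := by rw [Matrix.mulVec_smul]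
      _ = c • (c • Ψ) := by rw [← h3]
      _ = (c * c) • Ψ := by rw [smul_smul]
  have hΨ0 : Ψ ≠ 0 := by
    rintro rfl
    have := hG.1
    simp [normSq] at this
  have h6 : c * c = 1 := by
    have h7 : (c * c - 1) • Ψ = 0 := by
      rw [sub_smul, one_smul, ← h5, sub_self]
    rcases smul_eq_zero.mp h7 with h8 | h8
    · exact sub_eq_zero.mp h8
    · exact absurd h8 hΨ0
  rcases mul_self_eq_one_iff.mp h6 with h7 | h7
  · left
    rw [h3, h7, one_smul]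
  · right
    rw [h3, h7, neg_smul, one_smul]

/-- unitary matrices have expectations of absolute value at most one -/
lemma ip_isom_le {n : Type} [Fintype n] [DecidableEq n] {M : Matrix n n ℂ} (h : Mᴴ * M = 1)
    (φ : n → ℂ) : ‖ip φ (M *ᵥ φ)‖ ≤ normSq φ := by
  have h1 := cs φ (M *ᵥ φ)
  rw [normSq_of_isom h] at h1
  have h2 := normSq_nonneg φ
  have h3 : ‖ip φ (M *ᵥ φ)‖ ^ 2 ≤ normSq φ ^ 2 := by rw [sq (normSq φ)]; exact h1
  exact abs_le_of_sq_le_sq' h3 h2 |>.2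

lemma shift_col (ε : ℝ) (hε : ε = 1 ∨ ε = -1) (l : Fin (N + 1)) :
    ∑ j, |shiftM N ε j l| = 1 := by
  rw [Finset.sum_eq_single (l + 1)]
  · have : shiftM N ε (l + 1) l = if l + 1 = 0 then ε else 1 := by
      unfold shiftM
      rw [if_pos rfl]
    rw [this]
    split_ifs
    · rcases hε with h | h <;> rw [h] <;> simp
    · simp
  · intro b _ hb
    have : shiftM N ε b l = 0 := by
      unfold shiftM
      rw [if_neg hb]
    rw [this, abs_zero]
  · intro h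
    exact absurd (mem_univ _) h

lemma qf_shift_le (h : JW) (ε : ℝ) (hε : ε = 1 ∨ ε = -1) (φ : Cf N → ℂ) :
    |(ip φ (qf (shiftM N ε) *ᵥ φ)).re| ≤ (N + 1) * normSq φ := by
  obtain ⟨hM, hPh, hPP, hA, hB⟩ := h N
  refine (Complex.abs_re_le_norm _).trans ?_
  unfold qf qfo
  rw [Matrix.sum_mulVec, ip_sum_right]
  refine (norm_sum_le _ _).trans ?_
  have h1 : ∀ j, ‖ip φ ((∑ l, (Complex.I * (shiftM N ε j l : ℂ)) • (Ao j * Bo l)) *ᵥ φ)‖ ≤
      ∑ l, |shiftM N ε j l| * normSq φ := by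
    intro j
    rw [Matrix.sum_mulVec, ip_sum_right]
    refine (norm_sum_le _ _).trans (Finset.sum_le_sum fun l _ => ?_)
    rw [Matrix.smul_mulVec, ip_smul_right, norm_mul, norm_mul, Complex.norm_I, one_mul,
      Complex.norm_real, Real.norm_eq_abs]
    apply mul_le_mul_of_nonneg_left _ (abs_nonneg _)
    apply ip_isom_le
    have e1 : (Ao j)ᴴ = Ao j := hM.1 (Sum.inl j)
    have e2 : (Bo l)ᴴ = Bo l := hM.1 (Sum.inr l)
    have e3 : Ao j * Ao j = 1 := hM.2.1 (Sum.inl j)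
    have e4 : Bo l * Bo l = 1 := hM.2.1 (Sum.inr l)
    rw [Matrix.conjTranspose_mul, e1, e2]
    calc Bo l * Ao j * (Ao j * Bo l) = Bo l * (Ao j * Ao j) * Bo l := by simp only [mul_assoc]
      _ = 1 := by rw [e3, mul_one, e4]
  refine (Finset.sum_le_sum fun j _ => h1 j).trans (le_of_eq ?_)
  rw [Finset.sum_comm]
  simp only [← Finset.sum_mul, shift_col ε hε]
  rw [Finset.sum_const, card_univ, Fintype.card_fin]
  simp

lemma qf_one (h : JW) : qf (1 : Matrix (Fin (N + 1)) (Fin (N + 1)) ℝ) = -∑ j : Fin (N + 1), Zo j := by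
  obtain ⟨hM, hPh, hPP, hA, hB⟩ := h N
  unfold qf qfo
  rw [← Finset.sum_neg_distrib]
  refine Finset.sum_congr rfl fun j _ => ?_
  rw [Finset.sum_eq_single j]
  · rw [Matrix.one_apply_eq]
    have e3 : Ao j * Ao j = 1 := hM.2.1 (Sum.inl j)
    unfold Bo
    rw [Matrix.mul_smul, ← mul_assoc, e3, one_mul, smul_smul]
    push_cast
    rw [mul_one, Complex.I_mul_I, neg_smul, one_smul]
  · intro l _ hl
    rw [Matrix.one_apply_ne (Ne.symm hl)]
    simp
  · intro h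
    exact absurd (mem_univ _) h

/-- the vector at the configuration `0` -/
def ee (N : ℕ) : Cf N → ℂ := Pi.single 0 1

lemma Zo_isom (j : Fin (N + 1)) : (Zo j)ᴴ * Zo j = 1 := by
  unfold Zo
  rw [Matrix.diagonal_conjTranspose, Matrix.diagonal_mul_diagonal, ← Matrix.diagonal_one]
  congr 1
  funext s
  unfold sgn
  simp only [Pi.star_apply]
  split_ifs <;> simp

lemma Zo_ee (j : Fin (N + 1)) : Zo j *ᵥ ee N = ee N := by
  unfold Zo ee
  funext s
  rw [Matrix.mulVec_diagonal]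
  by_cases hs : s = 0
  · subst hs
    simp [sgn]
  · rw [Pi.single_eq_of_ne hs, mul_zero]

lemma Po_ee : Po *ᵥ ee N = ee N := by
  unfold Po ee
  funext s
  rw [Matrix.mulVec_diagonal]
  by_cases hs : s = 0
  · subst hs
    simp [sgn]
  · rw [Pi.single_eq_of_ne hs, mul_zero]

lemma normSq_ee : normSq (ee N) = 1 := by
  unfold normSq ee
  rw [Finset.sum_eq_single 0]
  · simp
  · intro b _ hb
    rw [Pi.single_eq_of_ne hb]
    simp
  · intro h
    exact absurd (mem_univ _) h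

lemma base (h : JW) (E : ℝ) (Ψ : Cf N → ℂ)
    (hG : IsGround (qf (1 : Matrix (Fin (N + 1)) (Fin (N + 1)) ℝ)) E 2 Ψ) : Po *ᵥ Ψ = Ψ := by
  rw [qf_one h] at hG
  have h1 : -(N + 1 : ℝ) ≤ E := by
    have e1 : (ip Ψ ((-∑ j : Fin (N + 1), Zo j) *ᵥ Ψ)).re = E := by
      rw [hG.2.1, ip_smul_right, Complex.re_ofReal_mul, re_ip_self, hG.1, mul_one]
    rw [← e1, Matrix.neg_mulVec, ip_neg_right, Matrix.sum_mulVec, ip_sum_right, Complex.neg_re,
      Complex.re_sum]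
    have e2 : ∑ j : Fin (N + 1), (ip Ψ (Zo j *ᵥ Ψ)).re ≤ ∑ j : Fin (N + 1), (1 : ℝ) := by
      refine Finset.sum_le_sum fun j _ => ?_
      refine (Complex.re_le_norm _).trans ?_
      rw [← hG.1]
      exact ip_isom_le (Zo_isom j) Ψ
    rw [Finset.sum_const, card_univ, Fintype.card_fin] at e2
    simp only [nsmul_eq_mul, mul_one] at e2
    push_cast at e2
    linarith
  have h2 : (ip (ee N) ((-∑ j : Fin (N + 1), Zo j) *ᵥ ee N)).re ≤ E := by
    rw [Matrix.neg_mulVec, Matrix.sum_mulVec]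
    simp only [Zo_ee]
    rw [Finset.sum_const, card_univ, Fintype.card_fin, ip_neg_right, ← Nat.cast_smul_eq_nsmul ℂ,
      ip_smul_right, Complex.neg_re]
    have : (((N + 1 : ℕ) : ℂ) * ip (ee N) (ee N)).re = ((N + 1 : ℕ) : ℝ) * (ip (ee N) (ee N)).re := by
      rw [ip_self]
      simp
    rw [this, re_ip_self, normSq_ee]
    push_cast
    linarith
  obtain ⟨h3, h4⟩ := prop_of_ground two_pos hG normSq_ee h2
  set c := ip Ψ (ee N) with hc
  have hc0 : c ≠ 0 := by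
    intro h0
    rw [h0] at h4
    norm_num at h4
  have h5 : Ψ = c⁻¹ • ee N := by
    rw [h3, smul_smul, inv_mul_cancel₀ hc0, one_smul]
  rw [h5, Matrix.mulVec_smul, Po_ee]

lemma step (h : JW) (hE : ExVac) {ε lam lam' : ℝ} (hε : ε = 1 ∨ ε = -1) (h0 : 0 ≤ lam)
    (hl : lam < 1) (hl' : lam' < 1) (hd : |lam' - lam| * (N + 1) < (1 - lam) + (1 - lam'))
    (hP : ∀ E Ψ, IsGround (qf (1 - lam • shiftM N ε)) E (2 * (1 - lam)) Ψ → Po *ᵥ Ψ = Ψ) :
    ∀ E Ψ, IsGround (qf (1 - lam' • shiftM N ε)) E (2 * (1 - lam')) Ψ → Po *ᵥ Ψ = Ψ := by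
  intro E' Ψ' hG'
  rcases po_ground h (by linarith) hG' with h1 | h1
  · exact h1
  exfalso
  obtain ⟨R, E, Ψ, hR, hG, hw⟩ := hE N ε lam hε h0 hl
  have h2 := hP E Ψ hG
  obtain ⟨hM, hPh, hPP, hA, hB⟩ := h N
  have h3 : ip Ψ Ψ' = 0 := by
    have e1 : ip Ψ Ψ' = -ip Ψ Ψ' := by
      calc ip Ψ Ψ' = ip (Po *ᵥ Ψ) Ψ' := by rw [h2]
        _ = ip Ψ (Po *ᵥ Ψ') := by rw [ip_herm hPh]
        _ = -ip Ψ Ψ' := by rw [h1, ip_neg_right]
    exact self_eq_neg.mp e1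
  have h3' : ip Ψ' Ψ = 0 := by rw [← ip_conj, h3, map_zero]
  have key : ∀ (a b E₀ : ℝ) (φ : Cf N → ℂ), normSq φ = 1 →
      qf (1 - b • shiftM N ε) *ᵥ φ = (E₀ : ℂ) • φ →
      (ip φ (qf (1 - a • shiftM N ε) *ᵥ φ)).re =
        E₀ + (b - a) * (ip φ (qf (shiftM N ε) *ᵥ φ)).re := by
    intro a b E₀ φ hφ hb
    have e1 : qf (1 - a • shiftM N ε) = qf (1 - b • shiftM N ε) + ((b - a : ℝ) : ℂ) • qf (shiftM N ε) := by
      rw [qf_sub, qf_sub, qf_smul, qf_smul]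
      push_cast
      rw [sub_smul]
      abel
    rw [e1, Matrix.add_mulVec, ip_add_right, hb, ip_smul_right, Complex.add_re,
      Complex.re_ofReal_mul, re_ip_self, hφ, mul_one, Matrix.smul_mulVec, ip_smul_right,
      Complex.re_ofReal_mul]
  have h4 := hG.2.2 Ψ'
  have h5 := hG'.2.2 Ψ
  rw [key lam lam' E' Ψ' hG'.1 hG'.2.1, h3, hG'.1] at h4
  rw [key lam' lam E Ψ hG.1 hG.2.1, h3', hG.1] at h5
  have h6 := qf_shift_le h ε hε Ψ
  have h7 := qf_shift_le h ε hε Ψ'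
  rw [hG.1, mul_one] at h6
  rw [hG'.1, mul_one] at h7
  rw [norm_zero] at h4 h5
  have h8 : (lam' - lam) * (ip Ψ' (qf (shiftM N ε) *ᵥ Ψ')).re ≤ |lam' - lam| * (N + 1) := by
    refine (le_abs_self _).trans ?_
    rw [abs_mul]
    exact mul_le_mul_of_nonneg_left h7 (abs_nonneg _)
  have h9 : (lam - lam') * (ip Ψ (qf (shiftM N ε) *ᵥ Ψ)).re ≤ |lam' - lam| * (N + 1) := by
    refine (le_abs_self _).trans ?_
    rw [abs_mul, abs_sub_comm lam lam']
    exact mul_le_mul_of_nonneg_left h6 (abs_nonneg _)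
  norm_num at h4 h5
  linarith

theorem main (h1 : JW) (h2 : ExVac) : Parity := by
  intro N ε lam E Ψ hε h0 hl hG
  obtain ⟨n, hn⟩ := exists_nat_gt (lam * (N + 1) / (1 - lam))
  have h1l : 0 < 1 - lam := by linarith
  have hn0 : (0 : ℝ) < n := lt_of_le_of_lt (by positivity) hn
  have hn1 : lam * (N + 1) < n * (1 - lam) := by
    rwa [div_lt_iff₀ h1l] at hn
  have hk : ∀ k : ℕ, k ≤ n → ∀ E Ψ, IsGround (qf (1 - (k * (lam / n) : ℝ) • shiftM N ε)) E
      (2 * (1 - (k * (lam / n) : ℝ))) Ψ → Po *ᵥ Ψ = Ψ := by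
    intro k
    induction k with
    | zero =>
      intro _ E Ψ hG
      simp only [Nat.cast_zero, zero_mul, zero_smul, sub_zero, mul_one] at hG
      exact base h1 E Ψ hG
    | succ k ih =>
      intro hk
      have hkn : (k : ℝ) + 1 ≤ n := by exact_mod_cast hk
      have hln : 0 ≤ lam / n := by positivity
      have hmul : n * (lam / n) = lam := by field_simp
      have hb1 : (k : ℝ) * (lam / n) ≤ lam := by nlinarith
      have hb2 : ((k + 1 : ℕ) : ℝ) * (lam / n) ≤ lam := by push_cast; nlinarith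
      refine step h1 h2 hε (by positivity) (lt_of_le_of_lt hb1 hl) (lt_of_le_of_lt hb2 hl) ?_
        (ih (by omega))
      have e1 : ((k + 1 : ℕ) : ℝ) * (lam / n) - k * (lam / n) = lam / n := by push_cast; ring
      rw [e1, abs_of_nonneg hln]
      have e2 : lam / n * (N + 1) < 1 - lam := by
        rw [div_mul_eq_mul_div, div_lt_iff₀ hn0]
        linarith
      linarith
  have hfin := hk n le_rfl E Ψ
  have hmul : n * (lam / n) = lam := by field_simp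
  rw [hmul] at hfin
  exact hfin hG

end Pool.Agent.Q298.PL.PA
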