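import Pool.Agent.Q298.PL.RO1

/-! Job PL-RO. -/

set_option autoImplicit false

open scoped BigOperators Matrix
open Finset Pool.Agent.TH235.PP Pool.Agent.Q234.PL

namespace Pool.Agent.Q298.PL.RO

section coef

variable (h1 : AlSum)

include h1

lemma al_summable : Summable fun n => al (n + 1) :=
  summable_of_sum_range_le (fun n => (h1.1 n).le) h1.2.1

lemma al_tsum : ∑' n, al (n + 1) ≤ 1 :=
  Real.tsum_le_of_sum_range_le (fun n => (h1.1 n).le) h1.2.1

lemma abs_ac_succ (n : ℕ) : |ac (n + 1)| = al (n + 1) := by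
  unfold ac
  rw [if_neg (Nat.succ_ne_zero n), abs_neg, abs_of_pos (h1.1 n)]

lemma abs_ac_summable : Summable fun n => |ac n| := by
  rw [← summable_nat_add_iff 1]
  simp only [abs_ac_succ h1]
  exact al_summable h1

lemma tail_le (k : ℕ) : ∑' n, |ac (n + (k + 1))| ≤ 1 := by
  have h2 := (al_summable h1).sum_add_tsum_nat_add k
  have h3 : ∑' n, |ac (n + (k + 1))| = ∑' n, al (n + k + 1) := by
    congr 1
    funext n
    rw [← add_assoc, abs_ac_succ h1]
  rw [h3]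
  have h4 : 0 ≤ ∑ i ∈ range k, al (i + 1) := Finset.sum_nonneg fun i _ => (h1.1 i).le
  linarith [al_tsum h1]

lemma total_le : ∑' n, |ac n| ≤ 2 := by
  have h2 := (abs_ac_summable h1).sum_add_tsum_nat_add 1
  rw [← h2]
  have h3 := tail_le h1 0
  simp only [zero_add] at h3
  have h4 : |ac 0| = 1 := by unfold ac; simp
  rw [Finset.sum_range_one, h4]
  linarith

end coef

open scoped Matrix.Norms.L2Operator

section ser

variable {N : ℕ} {ε lam : ℝ}

lemma norm_shift (hε : ε = 1 ∨ ε = -1) : ‖shiftM N ε‖ ≤ 1 := by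
  have h := Matrix.l2_opNorm_conjTranspose_mul_self (shiftM N ε)
  rw [Matrix.conjTranspose_eq_transpose_of_trivial, shift_tr_mul hε, norm_one] at h
  nlinarith [norm_nonneg (shiftM N ε)]

lemma norm_shift_pow (hε : ε = 1 ∨ ε = -1) (n : ℕ) : ‖shiftM N ε ^ n‖ ≤ 1 := by
  induction n with
  | zero => rw [pow_zero, norm_one]
  | succ n ih =>
    rw [pow_succ]
    exact (norm_mul_le _ _).trans (mul_le_one₀ ih (norm_nonneg _) (norm_shift hε))

/-- the terms of the series -/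
noncomputable def tm (N : ℕ) (ε lam : ℝ) (n : ℕ) : Matrix (Fin (N + 1)) (Fin (N + 1)) ℝ :=
  (ac n * lam ^ n) • shiftM N ε ^ n

lemma norm_tm (hε : ε = 1 ∨ ε = -1) (h0 : 0 ≤ lam) (hl : lam < 1) (n : ℕ) :
    ‖tm N ε lam n‖ ≤ |ac n| := by
  unfold tm
  rw [norm_smul, Real.norm_eq_abs, abs_mul, abs_pow, abs_of_nonneg h0]
  have h2 : lam ^ n ≤ 1 := pow_le_one₀ h0 hl.le
  have h3 := norm_shift_pow (N := N) hε n
  calc |ac n| * lam ^ n * ‖shiftM N ε ^ n‖ ≤ |ac n| * 1 * 1 := by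
        apply mul_le_mul _ h3 (norm_nonneg _) (by positivity)
        exact mul_le_mul_of_nonneg_left h2 (abs_nonneg _)
    _ = |ac n| := by ring

variable (h1 : AlSum) (hε : ε = 1 ∨ ε = -1) (h0 : 0 ≤ lam) (hl : lam < 1)

include h1 hε h0 hl

lemma norm_summable : Summable fun n => ‖tm N ε lam n‖ :=
  Summable.of_nonneg_of_le (fun _ => norm_nonneg _) (norm_tm hε h0 hl) (abs_ac_summable h1)

lemma tm_summable : Summable (tm N ε lam) := (norm_summable h1 hε h0 hl).of_norm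

lemma norm_R : ‖∑' n, tm N ε lam n‖ ≤ 2 := by
  refine (norm_tsum_le_tsum_norm (norm_summable h1 hε h0 hl)).trans ?_
  refine le_trans ?_ (total_le h1)
  exact Summable.tsum_le_tsum (norm_tm hε h0 hl) (norm_summable h1 hε h0 hl) (abs_ac_summable h1)

lemma R_sq : (∑' n, tm N ε lam n) * (∑' n, tm N ε lam n) = 1 - lam • shiftM N ε := by
  rw [tsum_mul_tsum_eq_tsum_sum_antidiagonal_of_summable_norm (norm_summable h1 hε h0 hl)
    (norm_summable h1 hε h0 hl)]
  have h2 : ∀ n, ∑ p ∈ antidiagonal n, tm N ε lam p.1 * tm N ε lam p.2 =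
      (lam ^ n * if n = 0 then 1 else if n = 1 then -1 else 0) • shiftM N ε ^ n := by
    intro n
    rw [← h1.2.2 n, Finset.mul_sum, Finset.sum_smul]
    refine Finset.sum_congr rfl fun p hp => ?_
    rw [HasAntidiagonal.mem_antidiagonal] at hp
    unfold tm
    rw [Matrix.smul_mul, Matrix.mul_smul, smul_smul, ← pow_add, hp]
    congr 1
    rw [← hp, pow_add]
    ring
  simp only [h2]
  rw [tsum_eq_sum (s := range 2)]
  · rw [Finset.sum_range_succ, Finset.sum_range_one]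
    simp [sub_eq_add_neg]
  · intro n hn
    rw [mem_range, not_lt] at hn
    rw [if_neg (by omega), if_neg (by omega), mul_zero, zero_smul]

lemma comm_of {X : Matrix (Fin (N + 1)) (Fin (N + 1)) ℝ} (hX : Commute X (shiftM N ε)) :
    Commute X (∑' n, tm N ε lam n) := by
  unfold Commute SemiconjBy
  rw [← (tm_summable h1 hε h0 hl).tsum_mul_left, ← (tm_summable h1 hε h0 hl).tsum_mul_right]
  congr 1
  funext n
  unfold tm
  rw [Matrix.smul_mul, Matrix.mul_smul, (hX.pow_right n).eq]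

lemma normal : (∑' n, tm N ε lam n) * (∑' n, tm N ε lam n)ᵀ =
    (∑' n, tm N ε lam n)ᵀ * (∑' n, tm N ε lam n) := by
  have hS : Commute (shiftM N ε)ᵀ (shiftM N ε) := by
    unfold Commute SemiconjBy
    rw [shift_tr_mul hε, mul_shift_tr hε]
  have h2 := (comm_of h1 hε h0 hl hS).eq
  have h3 := congrArg Matrix.transpose h2
  rw [Matrix.transpose_mul, Matrix.transpose_mul, Matrix.transpose_transpose] at h3
  have h4 : Commute (∑' n, tm N ε lam n)ᵀ (shiftM N ε) := h3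
  exact (comm_of h1 hε h0 hl h4).eq.symm

lemma entry_hasSum (i j : Fin (N + 1)) :
    HasSum (fun n => (tm N ε lam n) i j) ((∑' n, tm N ε lam n) i j) := by
  have h2 := (tm_summable (N := N) h1 hε h0 hl).hasSum
  exact h2.map (Matrix.entryAddMonoidHom ℝ i j) (continuous_id.matrix_elem i j)

end ser

section vec

variable {K : ℕ}

/-- the Euclidean norm -/
noncomputable def nv (v : Fin K → ℝ) : ℝ := ‖(WithLp.toLp 2 v : EuclideanSpace ℝ (Fin K))‖

lemma nv_sq (v : Fin K → ℝ) : nv v ^ 2 = v ⬝ᵥ v := by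
  unfold nv
  rw [EuclideanSpace.norm_sq_eq]
  unfold dotProduct
  refine Finset.sum_congr rfl fun i _ => ?_
  rw [Real.norm_eq_abs, sq_abs, sq]

lemma nv_nonneg (v : Fin K → ℝ) : 0 ≤ nv v := norm_nonneg _

lemma nv_eq {v w : Fin K → ℝ} (h : v ⬝ᵥ v = w ⬝ᵥ w) : nv v = nv w := by
  rw [← nv_sq, ← nv_sq] at h
  exact (sq_eq_sq₀ (nv_nonneg v) (nv_nonneg w)).mp h

lemma nv_sub_ge (v w : Fin K → ℝ) : nv v - nv w ≤ nv (v - w) := by
  unfold nv
  rw [WithLp.toLp_sub]
  exact norm_sub_norm_le _ _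

lemma nv_smul {c : ℝ} (hc : 0 ≤ c) (v : Fin K → ℝ) : nv (c • v) = c * nv v := by
  unfold nv
  rw [WithLp.toLp_smul, norm_smul, Real.norm_eq_abs, abs_of_nonneg hc]

lemma nv_cs (v w : Fin K → ℝ) : v ⬝ᵥ w ≤ nv v * nv w := by
  have h := real_inner_le_norm (WithLp.toLp 2 v : EuclideanSpace ℝ (Fin K)) (WithLp.toLp 2 w)
  rw [EuclideanSpace.inner_eq_star_dotProduct] at h
  unfold nv
  refine le_trans (le_of_eq ?_) h
  rw [dotProduct_comm]
  simp

lemma dot_mulVec (R : Matrix (Fin K) (Fin K) ℝ) (x y : Fin K → ℝ) :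
    x ⬝ᵥ (R *ᵥ y) = (Rᵀ *ᵥ x) ⬝ᵥ y := by
  rw [Matrix.dotProduct_mulVec, Matrix.mulVec_transpose]

lemma nv_normal {R : Matrix (Fin K) (Fin K) ℝ} (h : R * Rᵀ = Rᵀ * R) (x : Fin K → ℝ) :
    nv (R *ᵥ x) = nv (Rᵀ *ᵥ x) := by
  apply nv_eq
  rw [dot_mulVec, dot_mulVec, Matrix.mulVec_mulVec, Matrix.mulVec_mulVec, Matrix.transpose_transpose,
    h]

lemma lower_aux {R S : Matrix (Fin K) (Fin K) ℝ} {lam : ℝ} (h : R * Rᵀ = Rᵀ * R)
    (hS : Sᵀ * S = 1) (hR : R * R = 1 - lam • S) (h0 : 0 ≤ lam) (hl : lam < 1) (v : Fin K → ℝ) :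
    (1 - lam) * (v ⬝ᵥ v) ≤ (R *ᵥ v) ⬝ᵥ (R *ᵥ v) := by
  have e1 : ∀ u, (1 - lam) * nv u ≤ nv (R *ᵥ (R *ᵥ u)) := by
    intro u
    rw [Matrix.mulVec_mulVec, hR, Matrix.sub_mulVec, Matrix.one_mulVec, Matrix.smul_mulVec]
    have h2 : nv (S *ᵥ u) = nv u := by
      apply nv_eq
      rw [dot_mulVec, Matrix.mulVec_mulVec, hS, Matrix.one_mulVec]
    have h3 := nv_sub_ge u (lam • (S *ᵥ u))
    rw [nv_smul h0, h2] at h3
    linarith
  have hinj : Function.Injective R.mulVec := by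
    intro x y hxy
    have h2 : R *ᵥ (x - y) = 0 := by
      rw [Matrix.mulVec_sub]
      exact sub_eq_zero.mpr hxy
    have h3 := e1 (x - y)
    rw [h2, Matrix.mulVec_zero] at h3
    have h4 : nv (0 : Fin K → ℝ) = 0 := by
      unfold nv
      simp
    rw [h4] at h3
    have h5 : nv (x - y) = 0 := by
      have := nv_nonneg (x - y)
      nlinarith
    unfold nv at h5
    rw [norm_eq_zero] at h5
    have h6 : x - y = 0 := by
      have := congrArg WithLp.ofLp h5
      simpa using this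
    exact sub_eq_zero.mp h6
  have hu : IsUnit R := Matrix.mulVec_injective_iff_isUnit.mp hinj
  have hu' : IsUnit Rᵀ := by
    rw [Matrix.isUnit_iff_isUnit_det, Matrix.det_transpose, ← Matrix.isUnit_iff_isUnit_det]
    exact hu
  obtain ⟨u, hu⟩ := Matrix.mulVec_surjective_iff_isUnit.mpr hu' v
  have hu1 : Rᵀ *ᵥ u = v := hu
  have e2 : v ⬝ᵥ v ≤ nv (R *ᵥ v) * nv u := by
    calc v ⬝ᵥ v = v ⬝ᵥ (Rᵀ *ᵥ u) := by rw [hu1]
      _ = (R *ᵥ v) ⬝ᵥ u := by rw [dot_mulVec, Matrix.transpose_transpose]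
      _ ≤ _ := nv_cs _ _
  have e3 : (1 - lam) * nv u ≤ nv (R *ᵥ v) := by
    refine (e1 u).trans (le_of_eq ?_)
    rw [nv_normal h, Matrix.mulVec_mulVec, ← h, ← Matrix.mulVec_mulVec, hu1]
  rw [← nv_sq (R *ᵥ v)]
  have h1l : 0 < 1 - lam := by linarith
  calc (1 - lam) * (v ⬝ᵥ v) ≤ (1 - lam) * (nv (R *ᵥ v) * nv u) :=
        mul_le_mul_of_nonneg_left e2 h1l.le
    _ = nv (R *ᵥ v) * ((1 - lam) * nv u) := by ring
    _ ≤ nv (R *ᵥ v) * nv (R *ᵥ v) := mul_le_mul_of_nonneg_left e3 (nv_nonneg _)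
    _ = _ := by ring

lemma upper_aux {R : Matrix (Fin K) (Fin K) ℝ} (h : ‖R‖ ≤ 2) (v : Fin K → ℝ) :
    (R *ᵥ v) ⬝ᵥ (R *ᵥ v) ≤ 4 * (v ⬝ᵥ v) := by
  rw [← nv_sq, ← nv_sq]
  have h2 : nv (R *ᵥ v) ≤ ‖R‖ * nv v := Matrix.l2_opNorm_mulVec R (WithLp.toLp 2 v)
  have h3 : nv (R *ᵥ v) ≤ 2 * nv v := h2.trans (mul_le_mul_of_nonneg_right h (nv_nonneg v))
  nlinarith [nv_nonneg v, nv_nonneg (R *ᵥ v)]

end vec

lemma tm_entry (N : ℕ) (ε lam : ℝ) (n : ℕ) (i j : Fin (N + 1)) :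
    (tm N ε lam n) i j = ac n * lam ^ n * (shiftM N ε ^ n) i j := rfl

lemma entry {N : ℕ} {ε lam : ℝ} (h1 : AlSum) (hε : ε = 1 ∨ ε = -1) (h0 : 0 ≤ lam) (hl : lam < 1)
    (i j : Fin (N + 1)) :
    |(∑' n, tm N ε lam n) i j -
      (if (j : ℕ) ≤ i then ac (i - j) * lam ^ ((i : ℕ) - j) else 0)| ≤
      lam ^ (N + 1 - ((j : ℕ) - i)) := by
  have hs := entry_hasSum (N := N) h1 hε h0 hl i j
  obtain ⟨k', hk'⟩ : ∃ k', N + 1 - ((j : ℕ) - i) = k' + 1 := ⟨N - ((j : ℕ) - i), by omega⟩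
  have e1 := hs.summable.sum_add_tsum_nat_add (k' + 1)
  rw [hs.tsum_eq] at e1
  have e2 : ∑ n ∈ range (k' + 1), (tm N ε lam n) i j =
      (if (j : ℕ) ≤ i then ac (i - j) * lam ^ ((i : ℕ) - j) else 0) := by
    by_cases hji : (j : ℕ) ≤ i
    · rw [if_pos hji, Finset.sum_eq_single ((i : ℕ) - j)]
      · rw [tm_entry, pow_entry]
        have h3 : ((j : ℕ) + ((i : ℕ) - j)) = i := by omega
        have h4 : (i : ℕ) % (N + 1) = i := Nat.mod_eq_of_lt i.2
        have h5 : (i : ℕ) / (N + 1) = 0 := Nat.div_eq_of_lt i.2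
        rw [h3, h4, if_pos rfl, h5, pow_zero, mul_one]
      · intro n hn hne
        rw [mem_range] at hn
        rw [tm_entry, pow_entry, if_neg, mul_zero]
        intro h
        apply hne
        rcases Nat.lt_or_ge ((j : ℕ) + n) (N + 1) with h6 | h6
        · rw [Nat.mod_eq_of_lt h6] at h
          omega
        · have h7 : ((j : ℕ) + n) % (N + 1) = (j : ℕ) + n - (N + 1) := by
            rw [Nat.mod_eq_sub_mod h6]
            apply Nat.mod_eq_of_lt
            have := j.2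
            omega
          rw [h7] at h
          have := j.2
          omega
      · intro h
        exfalso
        apply h
        rw [mem_range]
        have := i.2
        omega
    · rw [if_neg hji]
      refine Finset.sum_eq_zero fun n hn => ?_
      rw [mem_range] at hn
      rw [tm_entry, pow_entry, if_neg, mul_zero]
      intro h
      rcases Nat.lt_or_ge ((j : ℕ) + n) (N + 1) with h6 | h6
      · rw [Nat.mod_eq_of_lt h6] at h
        omega
      · have h7 : ((j : ℕ) + n) % (N + 1) = (j : ℕ) + n - (N + 1) := by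
          rw [Nat.mod_eq_sub_mod h6]
          apply Nat.mod_eq_of_lt
          have := j.2
          omega
        rw [h7] at h
        have := j.2
        omega
  rw [← e2, ← e1, add_sub_cancel_left, hk']
  have hb : ∀ n, ‖(tm N ε lam (n + (k' + 1))) i j‖ ≤ lam ^ (k' + 1) * |ac (n + (k' + 1))| := by
    intro n
    rw [tm_entry, Real.norm_eq_abs, abs_mul, abs_mul, abs_pow, abs_of_nonneg h0]
    have h3 : lam ^ (n + (k' + 1)) ≤ lam ^ (k' + 1) :=
      pow_le_pow_of_le_one h0 hl.le (by omega)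
    have h4 := abs_entry hε (n + (k' + 1)) i j
    calc |ac (n + (k' + 1))| * lam ^ (n + (k' + 1)) * |(shiftM N ε ^ (n + (k' + 1))) i j|
        ≤ |ac (n + (k' + 1))| * lam ^ (k' + 1) * 1 := by
          apply mul_le_mul _ h4 (abs_nonneg _) (by positivity)
          exact mul_le_mul_of_nonneg_left h3 (abs_nonneg _)
      _ = _ := by ring
  have hsum : Summable fun n => lam ^ (k' + 1) * |ac (n + (k' + 1))| :=
    (((summable_nat_add_iff (k' + 1)).mpr (abs_ac_summable h1))).mul_left _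
  have h5 := tsum_of_norm_bounded hsum.hasSum hb
  rw [Real.norm_eq_abs] at h5
  refine h5.trans ?_
  rw [tsum_mul_left]
  calc lam ^ (k' + 1) * ∑' n, |ac (n + (k' + 1))| ≤ lam ^ (k' + 1) * 1 :=
        mul_le_mul_of_nonneg_left (tail_le h1 k') (by positivity)
    _ = _ := mul_one _

theorem main (h1 : AlSum) : Root := by
  intro N ε lam hε h0 hl
  exact ⟨∑' n, tm N ε lam n,
    { sq := R_sq h1 hε h0 hl
      normal := normal h1 hε h0 hl
      upper := upper_aux (norm_R h1 hε h0 hl)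
      lower := lower_aux (normal h1 hε h0 hl) (shift_tr_mul hε) (R_sq h1 hε h0 hl) h0 hl
      entry := entry h1 hε h0 hl }⟩

end Pool.Agent.Q298.PL.RO
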