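import Pool.Agent.Q298.PL.Proj

/-! Job PL-VA. -/

set_option autoImplicit false

open scoped BigOperators Matrix
open Finset Pool.Agent.TH235.PP Pool.Agent.Q234.PL

namespace Pool.Agent.Q298.PL.VA

open Pool.Agent.Q298.PL

variable {n : Type} [Fintype n] [DecidableEq n]

lemma diag {K : ℕ} {Q : Matrix (Fin K) (Fin K) ℝ} (hQ : Qᵀ = Q) :
    ∃ (V : Matrix (Fin K) (Fin K) ℝ) (d : Fin K → ℝ), Vᵀ * V = 1 ∧ V * Vᵀ = 1 ∧
      Q * V = V * Matrix.diagonal d := by
  have hH : Q.IsHermitian := by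
    unfold Matrix.IsHermitian
    rw [Matrix.conjTranspose_eq_transpose_of_trivial, hQ]
  refine ⟨(hH.eigenvectorUnitary : Matrix (Fin K) (Fin K) ℝ), hH.eigenvalues, ?_, ?_, ?_⟩
  · have := (Matrix.mem_unitaryGroup_iff').mp hH.eigenvectorUnitary.2
    rw [Matrix.star_eq_conjTranspose, Matrix.conjTranspose_eq_transpose_of_trivial] at this
    exact this
  · have := (Matrix.mem_unitaryGroup_iff).mp hH.eigenvectorUnitary.2
    rw [Matrix.star_eq_conjTranspose, Matrix.conjTranspose_eq_transpose_of_trivial] at this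
    exact this
  · ext i j
    rw [Matrix.mul_diagonal]
    have h1 := congrFun (hH.mulVec_eigenvectorBasis j) i
    have h2 : ∀ k, (hH.eigenvectorUnitary : Matrix (Fin K) (Fin K) ℝ) k j =
        (hH.eigenvectorBasis j) k := fun k => hH.eigenvectorUnitary_apply k j
    rw [h2]
    rw [Matrix.mul_apply]
    simp only [h2]
    have h3 : (Q *ᵥ ⇑(hH.eigenvectorBasis j)) i = ∑ k, Q i k * (hH.eigenvectorBasis j) k := rfl
    rw [← h3, h1]
    simp [mul_comm]

lemma qfo_conj {K : ℕ} (A B : Fin K → Matrix n n ℂ) (F V : Matrix (Fin K) (Fin K) ℝ)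
    (d : Fin K → ℝ) :
    qfo A B (F * Matrix.diagonal d * Vᵀ) = ∑ j, ((d j : ℝ) : ℂ) •
      tt (fun j => ∑ i, ((F i j : ℝ) : ℂ) • A i) (fun j => ∑ i, ((V i j : ℝ) : ℂ) • B i) j := by
  have h1 : ∀ j, ((d j : ℝ) : ℂ) •
      tt (fun j => ∑ i, ((F i j : ℝ) : ℂ) • A i) (fun j => ∑ i, ((V i j : ℝ) : ℂ) • B i) j =
      ∑ i, ∑ l, (Complex.I * ((F i j * d j * V l j : ℝ) : ℂ)) • (A i * B l) := by
    intro j
    unfold tt
    rw [Finset.sum_mul, Finset.smul_sum, Finset.smul_sum]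
    refine Finset.sum_congr rfl fun i _ => ?_
    rw [Finset.mul_sum, Finset.smul_sum, Finset.smul_sum]
    refine Finset.sum_congr rfl fun l _ => ?_
    rw [Matrix.smul_mul, Matrix.mul_smul, smul_smul, smul_smul, smul_smul]
    congr 1
    push_cast
    ring
  simp only [h1]
  unfold qfo
  conv_rhs => rw [Finset.sum_comm]
  refine Finset.sum_congr rfl fun i _ => ?_
  conv_rhs => rw [Finset.sum_comm]
  refine Finset.sum_congr rfl fun l _ => ?_
  rw [← Finset.sum_smul, ← Finset.mul_sum]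
  congr 2
  rw [Matrix.mul_apply, ← Complex.ofReal_sum]
  congr 1
  refine Finset.sum_congr rfl fun j _ => ?_
  rw [Matrix.mul_diagonal, Matrix.transpose_apply]

lemma comb_mulVec {K : ℕ} (A : Fin K → Matrix n n ℂ) (F : Matrix (Fin K) (Fin K) ℝ)
    (c : Fin K → ℝ) :
    ∑ i, (((F *ᵥ c) i : ℝ) : ℂ) • A i = ∑ j, ((c j : ℝ) : ℂ) • ∑ i, ((F i j : ℝ) : ℂ) • A i := by
  simp only [Finset.smul_sum]
  rw [Finset.sum_comm]
  refine Finset.sum_congr rfl fun i _ => ?_
  simp only [smul_smul]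
  rw [← Finset.sum_smul]
  congr 1
  unfold Matrix.mulVec dotProduct
  push_cast
  refine Finset.sum_congr rfl fun j _ => ?_
  ring

theorem main : Vacuum := by
  intro n _ _ K A B hcard hM U Q q hU hQ hq hpos
  obtain ⟨V, d, hV, hV', hQV⟩ := diag hQ
  have hd : ∀ j, q ≤ d j := by
    intro j
    have h1 := hpos (fun i => V i j)
    have h2 : (fun i => V i j) ⬝ᵥ (fun i => V i j) = 1 := by
      have : (fun i => V i j) ⬝ᵥ (fun i => V i j) = (Vᵀ * V) j j := rfl
      rw [this, hV, Matrix.one_apply_eq]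
    have h3 : Q *ᵥ (fun i => V i j) = fun i => d j * V i j := by
      funext i
      have : (Q *ᵥ (fun i => V i j)) i = (Q * V) i j := rfl
      rw [this, hQV, Matrix.mul_diagonal, mul_comm]
    rw [h2, h3] at h1
    have h4 : (fun i => V i j) ⬝ᵥ (fun i => d j * V i j) = d j * ((fun i => V i j) ⬝ᵥ (fun i => V i j)) := by
      have : (fun i => d j * V i j) = d j • (fun i => V i j) := rfl
      rw [this, dotProduct_smul, smul_eq_mul]
    rw [h4, h2] at h1
    linarith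
  set F := U * V with hF
  have hFF : Fᵀ * F = 1 := by
    rw [hF, Matrix.transpose_mul, Matrix.mul_assoc, ← Matrix.mul_assoc Uᵀ, hU, Matrix.one_mul, hV]
  have hUQ : U * Q = F * Matrix.diagonal d * Vᵀ := by
    rw [hF, Matrix.mul_assoc U, ← hQV, Matrix.mul_assoc, Matrix.mul_assoc, hV', Matrix.mul_one]
  have htr : Q.trace = ∑ j, d j := by
    have : Q = V * Matrix.diagonal d * Vᵀ := by
      rw [← hQV, Matrix.mul_assoc, hV', Matrix.mul_one]
    rw [this, Matrix.trace_mul_comm, ← Matrix.mul_assoc, hV, Matrix.one_mul, Matrix.trace_diagonal]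
  have hM' := maj_comb2 hM F V hFF hV
  set A' : Fin K → Matrix n n ℂ := fun j => ∑ i, ((F i j : ℝ) : ℂ) • A i with hA'
  set B' : Fin K → Matrix n n ℂ := fun j => ∑ i, ((V i j : ℝ) : ℂ) • B i with hB'
  obtain ⟨P, hP, hPP, hc, ht, htrP, hn⟩ := exists_proj hM' univ
  have htrP1 : P.trace = 1 := by
    rw [card_univ, Fintype.card_fin, hcard] at htrP
    have h2 : ((2 : ℂ) ^ K) ≠ 0 := pow_ne_zero _ two_ne_zero
    have : P.trace * 2 ^ K = 1 * 2 ^ K := by rw [htrP]; push_cast; ring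
    exact mul_right_cancel₀ h2 this
  obtain ⟨Ψ, hΨ, hPΨ, hPφ⟩ := rank_one hP hPP htrP1
  have hT : ∀ j, tt A' B' j *ᵥ Ψ = -Ψ := by
    intro j
    calc tt A' B' j *ᵥ Ψ = tt A' B' j *ᵥ (P *ᵥ Ψ) := by rw [hPΨ]
      _ = (-P) *ᵥ Ψ := by rw [Matrix.mulVec_mulVec, ht j (mem_univ j)]
      _ = -Ψ := by rw [Matrix.neg_mulVec, hPΨ]
  have hH : qfo A B (U * Q) = ∑ j, ((d j : ℝ) : ℂ) • tt A' B' j := by
    rw [hUQ, qfo_conj]
  refine ⟨Ψ, ⟨hΨ, ?_, ?_⟩, ?_⟩
  · rw [hH, Matrix.sum_mulVec, htr]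
    have : ∀ j, (((d j : ℝ) : ℂ) • tt A' B' j) *ᵥ Ψ = (-((d j : ℝ) : ℂ)) • Ψ := by
      intro j
      rw [Matrix.smul_mulVec, hT j, smul_neg, neg_smul]
    simp only [this]
    rw [← Finset.sum_smul, Finset.sum_neg_distrib]
    push_cast
    rfl
  · intro φ
    have e1 : (ip φ (qfo A B (U * Q) *ᵥ φ)).re =
        ∑ j, d j * (normSq φ - 2 * normSq (pp A' B' j *ᵥ φ)) := by
      rw [hH, Matrix.sum_mulVec, ip_sum_right, Complex.re_sum]
      refine Finset.sum_congr rfl fun j _ => ?_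
      rw [Matrix.smul_mulVec, ip_smul_right, Complex.re_ofReal_mul, tt_eq, Matrix.sub_mulVec,
        Matrix.one_mulVec, Matrix.smul_mulVec, ip_sub_right, ip_smul_right, Complex.sub_re,
        re_ip_self]
      have : ((2 : ℂ) * ip φ (pp A' B' j *ᵥ φ)).re = 2 * (ip φ (pp A' B' j *ᵥ φ)).re := by
        simp
      rw [this, ip_proj (pp_herm hM' j) (pp_idem hM' j)]
    have e2 : normSq (P *ᵥ φ) = ‖ip Ψ φ‖ ^ 2 := by
      rw [hPφ φ, normSq_smul, hΨ, mul_one]
    have e3 := hn φ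
    rw [e2] at e3
    have e4 : q * ∑ j, (normSq φ - normSq (pp A' B' j *ᵥ φ)) ≤
        ∑ j, d j * (normSq φ - normSq (pp A' B' j *ᵥ φ)) := by
      rw [Finset.mul_sum]
      refine Finset.sum_le_sum fun j _ => ?_
      exact mul_le_mul_of_nonneg_right (hd j)
        (by linarith [proj_le (pp_herm hM' j) (pp_idem hM' j) φ])
    have e5 : ∑ j, d j * (normSq φ - 2 * normSq (pp A' B' j *ᵥ φ)) =
        -(∑ j, d j) * normSq φ + 2 * ∑ j, d j * (normSq φ - normSq (pp A' B' j *ᵥ φ)) := by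
      rw [neg_mul, Finset.sum_mul, Finset.mul_sum, ← Finset.sum_neg_distrib, ← Finset.sum_add_distrib]
      refine Finset.sum_congr rfl fun j _ => ?_
      ring
    rw [e1, e5, htr]
    nlinarith [mul_le_mul_of_nonneg_left e3 hq.le]
  · intro v
    set c := Vᵀ *ᵥ v with hcd
    have hv : V *ᵥ c = v := by
      rw [hcd, Matrix.mulVec_mulVec, hV', Matrix.one_mulVec]
    have hUv : U *ᵥ v = F *ᵥ c := by
      rw [hF, ← Matrix.mulVec_mulVec, hv]
    have e1 : ∑ j, (((U *ᵥ v) j : ℝ) : ℂ) • A j = ∑ j, ((c j : ℝ) : ℂ) • A' j := by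
      rw [hUv]
      exact comb_mulVec A F c
    have e2 : ∑ j, ((v j : ℝ) : ℂ) • B j = ∑ j, ((c j : ℝ) : ℂ) • B' j := by
      rw [← comb_mulVec B V c, hv]
    have e3 : ∀ j, (A' j + Complex.I • B' j) *ᵥ Ψ = 0 := by
      intro j
      have h1 := congrArg (fun x => A' j *ᵥ x) (hT j)
      rw [Matrix.mulVec_mulVec] at h1
      have h2 : A' j * tt A' B' j = Complex.I • B' j := by
        unfold tt
        rw [Matrix.mul_smul, ← mul_assoc, mAA hM', one_mul]
      rw [h2, Matrix.mulVec_neg] at h1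
      rw [Matrix.add_mulVec, h1]
      abel
    rw [e1, e2]
    have e4 : ∑ j, ((c j : ℝ) : ℂ) • A' j + Complex.I • ∑ j, ((c j : ℝ) : ℂ) • B' j =
        ∑ j, ((c j : ℝ) : ℂ) • (A' j + Complex.I • B' j) := by
      rw [Finset.smul_sum, ← Finset.sum_add_distrib]
      refine Finset.sum_congr rfl fun j _ => ?_
      rw [smul_add, smul_comm]
    rw [e4, Matrix.sum_mulVec]
    refine Finset.sum_eq_zero fun j _ => ?_
    rw [Matrix.smul_mulVec, e3 j, smul_zero]

end Pool.Agent.Q298.PL.VA
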