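import Pool.Agent.Q234.PL.Stm2

/-! Job PL-HE. -/

set_option autoImplicit false

open scoped BigOperators Matrix
open Finset Pool.Agent.TH235.PP Pool.Agent.Q234.PL

namespace Pool.Agent.Q298.PL.HE

lemma mem00 : ((0, 0) : ℤ × ℤ) ∈ pair := by simp [pair]
lemma mem10 : ((1, 0) : ℤ × ℤ) ∈ pair := by simp [pair]

lemma pair_forall {p : pair → Prop} : (∀ x, p x) ↔ p ⟨(0, 0), mem00⟩ ∧ p ⟨(1, 0), mem10⟩ := by
  constructor
  · intro h
    exact ⟨h _, h _⟩
  · rintro ⟨h0, h1⟩ ⟨x, hx⟩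
    have hx' : x = (0, 0) ∨ x = (1, 0) := by simpa [pair] using hx
    rcases hx' with rfl | rfl
    · exact h0
    · exact h1

lemma box_forall {p : Fin 2 × Fin 2 → Prop} :
    (∀ x, p x) ↔ p (0, 0) ∧ p (1, 0) ∧ p (0, 1) ∧ p (1, 1) := by
  constructor
  · intro h
    exact ⟨h _, h _, h _, h _⟩
  · rintro ⟨h0, h1, h2, h3⟩ ⟨x, y⟩
    fin_cases x <;> fin_cases y
    · exact h0
    · exact h2
    · exact h1
    · exact h3

lemma ite_eq' {α : Type} {p q : Prop} {dp : Decidable p} {dq : Decidable q} (h : p ↔ q)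
    {a b c : α} (hab : a = b) : @ite α p dp a c = @ite α q dq b c := by
  by_cases hp : p
  · rw [if_pos hp, if_pos (h.mp hp), hab]
  · rw [if_neg hp, if_neg (fun hq => hp (h.mpr hq))]

theorem main : HamEq := by
  classical
  intro L _ lam hL
  unfold Pool.Agent.H4R2.ham Pool.Agent.TH235.PP.ham
  refine Finset.sum_congr rfl fun u _ => ?_
  funext s t
  have : Fact (1 < L) := ⟨by omega⟩
  have h10 : (1 : ZMod L) ≠ 0 := one_ne_zero
  obtain ⟨u1, u2⟩ := u
  have ea : Pool.Agent.H4R2.toTorus L ((0, 0) : ℤ × ℤ) + (u1, u2) = (u1, u2) := by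
    unfold Pool.Agent.H4R2.toTorus
    simp
  have eb : Pool.Agent.H4R2.toTorus L ((1, 0) : ℤ × ℤ) + (u1, u2) = (u1 + 1, u2) := by
    unfold Pool.Agent.H4R2.toTorus
    simp [add_comm]
  have fa : sh (R := 2) ((u1, u2) : Site L) (0, 0) = (u1, u2) := by
    unfold sh
    simp
  have fb : sh (R := 2) ((u1, u2) : Site L) (1, 0) = (u1 + 1, u2) := by
    unfold sh
    simp
  have fc : sh (R := 2) ((u1, u2) : Site L) (0, 1) = (u1, u2 + 1) := by
    unfold sh
    simp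
  have fd : sh (R := 2) ((u1, u2) : Site L) (1, 1) = (u1 + 1, u2 + 1) := by
    unfold sh
    simp
  have hl : Pool.Agent.H4R2.term pair (isingPair lam) L (u1, u2) s t =
      if (∀ v, (u1, u2) ≠ v ∧ (u1 + 1, u2) ≠ v → s v = t v) then
        (if s (u1, u2) = t (u1, u2) ∧ s (u1 + 1, u2) = t (u1 + 1, u2) then -(sgn (s (u1, u2))) else 0) -
          (if t (u1, u2) = s (u1, u2) + 1 ∧ t (u1 + 1, u2) = s (u1 + 1, u2) + 1 then (lam : ℂ) else 0)
      else 0 := by
    unfold Pool.Agent.H4R2.term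
    refine ite_eq' ?_ ?_
    · refine forall_congr' fun v => ?_
      rw [pair_forall (p := fun x => Pool.Agent.H4R2.toTorus L x + (u1, u2) ≠ v)]
      simp only [ea, eb]
    · unfold isingPair
      congr 1
      · refine if_congr ?_ ?_ rfl
        · rw [funext_iff, pair_forall]
          simp only [ea, eb]
        · simp only [ea]
      · refine if_congr ?_ rfl rfl
        rw [funext_iff, pair_forall]
        simp only [ea, eb]
  have hr : term (ising lam) ((u1, u2) : Site L) s t =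
      if (∀ v, (u1, u2) ≠ v ∧ (u1 + 1, u2) ≠ v ∧ (u1, u2 + 1) ≠ v ∧ (u1 + 1, u2 + 1) ≠ v → s v = t v) then
        (if s (u1, u2) = t (u1, u2) ∧ s (u1 + 1, u2) = t (u1 + 1, u2) ∧ s (u1, u2 + 1) = t (u1, u2 + 1) ∧
          s (u1 + 1, u2 + 1) = t (u1 + 1, u2 + 1) then -(sgn (s (u1, u2))) else 0) -
          (if t (u1, u2) = s (u1, u2) + 1 ∧ t (u1 + 1, u2) = s (u1 + 1, u2) + 1 ∧
            t (u1, u2 + 1) = s (u1, u2 + 1) ∧ t (u1 + 1, u2 + 1) = s (u1 + 1, u2 + 1) then (lam : ℂ) else 0)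
      else 0 := by
    unfold term
    refine ite_eq' ?_ ?_
    · refine forall_congr' fun v => ?_
      rw [box_forall (p := fun x => sh (R := 2) ((u1, u2) : Site L) x ≠ v)]
      simp only [fa, fb, fc, fd]
    · unfold ising
      congr 1
      · refine if_congr ?_ ?_ rfl
        · rw [funext_iff, box_forall]
          simp only [fa, fb, fc, fd]
        · simp only [fa]
      · refine if_congr ?_ rfl rfl
        simp only [fa, fb, fc, fd]
  rw [hl, hr]
  have nac : ((u1, u2) : Site L) ≠ (u1, u2 + 1) := by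
    intro h
    have := (Prod.ext_iff.mp h).2
    simp at this
  have nbc : ((u1 + 1, u2) : Site L) ≠ (u1, u2 + 1) := by
    intro h
    have := (Prod.ext_iff.mp h).2
    simp at this
  have nad : ((u1, u2) : Site L) ≠ (u1 + 1, u2 + 1) := by
    intro h
    have := (Prod.ext_iff.mp h).2
    simp at this
  have nbd : ((u1 + 1, u2) : Site L) ≠ (u1 + 1, u2 + 1) := by
    intro h
    have := (Prod.ext_iff.mp h).2
    simp at this
  by_cases hCP : ∀ v, (u1, u2) ≠ v ∧ (u1 + 1, u2) ≠ v → s v = t v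
  · have hCB : ∀ v, (u1, u2) ≠ v ∧ (u1 + 1, u2) ≠ v ∧ (u1, u2 + 1) ≠ v ∧ (u1 + 1, u2 + 1) ≠ v →
        s v = t v := fun v hv => hCP v ⟨hv.1, hv.2.1⟩
    have hc : s (u1, u2 + 1) = t (u1, u2 + 1) := hCP _ ⟨nac, nbc⟩
    have hd : s (u1 + 1, u2 + 1) = t (u1 + 1, u2 + 1) := hCP _ ⟨nad, nbd⟩
    rw [if_pos hCP, if_pos hCB]
    simp only [hc, hd, and_true]
  · rw [if_neg hCP]
    by_cases hCB : ∀ v, (u1, u2) ≠ v ∧ (u1 + 1, u2) ≠ v ∧ (u1, u2 + 1) ≠ v ∧ (u1 + 1, u2 + 1) ≠ v →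
        s v = t v
    · rw [if_pos hCB]
      have hno : ¬ (s (u1, u2 + 1) = t (u1, u2 + 1) ∧ s (u1 + 1, u2 + 1) = t (u1 + 1, u2 + 1)) := by
        rintro ⟨hc, hd⟩
        apply hCP
        rintro v ⟨ha, hb⟩
        by_cases hvc : (u1, u2 + 1) = v
        · rw [← hvc]; exact hc
        · by_cases hvd : (u1 + 1, u2 + 1) = v
          · rw [← hvd]; exact hd
          · exact hCB v ⟨ha, hb, hvc, hvd⟩
      rw [if_neg (fun h => hno ⟨h.2.2.1, h.2.2.2⟩),
        if_neg (fun h => hno ⟨h.2.2.1.symm, h.2.2.2.symm⟩), sub_zero]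
    · rw [if_neg hCB]

end Pool.Agent.Q298.PL.HE
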