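import Pool.Agent.Q298.PL.LB1

/-! Job PL-LB. -/

set_option autoImplicit false

open scoped BigOperators Matrix InnerProductSpace
open Finset Pool.Agent.TH235.PP Pool.Agent.Q234.PL

namespace Pool.Agent.Q298.PL.LB

open Pool.Agent.Q298.PL

section split

variable {V ι : Type} (j : ι → V) (hj : Function.Injective j)

open Classical in
/-- configurations: on the sites `j x`, and on the other sites -/
noncomputable def sp : (V → Fin 2) ≃ (ι → Fin 2) × ({v : V // ¬ ∃ x, j x = v} → Fin 2) where
  toFun s := (fun x => s (j x), fun w => s w.1)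
  invFun ao := fun w => if h : ∃ x, j x = w then ao.1 h.choose else ao.2 ⟨w, h⟩
  left_inv s := by
    funext w
    by_cases h : ∃ x, j x = w
    · simp only [dif_pos h]
      rw [h.choose_spec]
    · simp only [dif_neg h]
  right_inv ao := by
    obtain ⟨a, o⟩ := ao
    refine Prod.ext ?_ ?_
    · funext x
      have h : ∃ y, j y = j x := ⟨x, rfl⟩
      simp only [dif_pos h]
      rw [hj h.choose_spec]
    · funext w
      simp only [dif_neg w.2]

lemma sp_symm_j (a : ι → Fin 2) (o : {v : V // ¬ ∃ x, j x = v} → Fin 2) (x : ι) :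
    (sp j hj).symm (a, o) (j x) = a x := by
  have := congrFun (congrArg Prod.fst ((sp j hj).apply_symm_apply (a, o))) x
  exact this

lemma sp_symm_out (a : ι → Fin 2) (o : {v : V // ¬ ∃ x, j x = v} → Fin 2)
    (w : {v : V // ¬ ∃ x, j x = v}) : (sp j hj).symm (a, o) w.1 = o w := by
  have := congrFun (congrArg Prod.snd ((sp j hj).apply_symm_apply (a, o))) w
  exact this

variable [Fintype V] [DecidableEq V] [Fintype ι] [DecidableEq ι]
  [Fintype {v : V // ¬ ∃ x, j x = v}]

lemma rdm_eq (θ : (V → Fin 2) → ℂ) :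
    Pool.Agent.H4R2.rdm j θ = rho (fun ao => θ ((sp j hj).symm ao)) := by
  classical
  funext a b
  unfold Pool.Agent.H4R2.rdm rho
  rw [← (sp j hj).symm.sum_comp, Fintype.sum_prod_type, Finset.sum_eq_single a]
  · refine Finset.sum_congr rfl fun o _ => ?_
    rw [← (sp j hj).symm.sum_comp, Finset.sum_eq_single (b, o)]
    · rw [if_pos]
      refine ⟨fun x => sp_symm_j j hj a o x, fun x => sp_symm_j j hj b o x, fun v hv => ?_⟩
      have h1 := sp_symm_out j hj a o ⟨v, fun ⟨x, hx⟩ => hv x hx⟩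
      have h2 := sp_symm_out j hj b o ⟨v, fun ⟨x, hx⟩ => hv x hx⟩
      exact h1.trans h2.symm
    · rintro ⟨b', o'⟩ _ hne
      rw [if_neg]
      rintro ⟨h1, h2, h3⟩
      apply hne
      refine Prod.ext ?_ ?_
      · funext x
        exact (sp_symm_j j hj b' o' x).symm.trans (h2 x)
      · funext w
        have h4 := h3 w.1 (fun x hx => w.2 ⟨x, hx⟩)
        rw [sp_symm_out, sp_symm_out] at h4
        exact h4.symm
    · intro h
      exact absurd (mem_univ _) h
  · intro a' _ hne
    refine Finset.sum_eq_zero fun o _ => Finset.sum_eq_zero fun t _ => ?_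
    rw [if_neg]
    rintro ⟨h1, h2, h3⟩
    apply hne
    funext x
    exact (sp_symm_j j hj a' o x).symm.trans (h1 x)
  · intro h
    exact absurd (mem_univ _) h

end split

lemma box_inj {L n : ℕ} [NeZero L] (h : n ≤ L) :
    Function.Injective (fun x : Pool.Agent.Q234.PL.box n => Pool.Agent.H4R2.toTorus L x) := by
  rintro ⟨⟨x1, x2⟩, hx⟩ ⟨⟨y1, y2⟩, hy⟩ hxy
  unfold Pool.Agent.Q234.PL.box at hx hy
  simp only [Finset.mem_product, Finset.mem_Ico] at hx hy
  unfold Pool.Agent.H4R2.toTorus at hxy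
  rw [Prod.ext_iff] at hxy
  simp only at hxy
  obtain ⟨h1, h2⟩ := hxy
  rw [ZMod.intCast_eq_intCast_iff_dvd_sub] at h1 h2
  have e1 : y1 - x1 = 0 := Int.eq_zero_of_abs_lt_dvd h1 (by rw [abs_lt]; omega)
  have e2 : y2 - x2 = 0 := Int.eq_zero_of_abs_lt_dvd h2 (by rw [abs_lt]; omega)
  apply Subtype.ext
  refine Prod.ext ?_ ?_ <;> simp only <;> omega

/-- the site below `x` -/
abbrev jj (L n : ℕ) [NeZero L] : Pool.Agent.Q234.PL.box n → Pool.Agent.TH235.PP.Site L :=
  fun x => Pool.Agent.H4R2.toTorus L x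

/-- the block paste on the box -/
noncomputable def bp {L n m : ℕ} [NeZero L] (y : ℕ) (p : Fin m × Fin m → Fin 2)
    (a : Pool.Agent.Q234.PL.box n → Fin 2) : Pool.Agent.Q234.PL.box n → Fin 2 := fun x =>
  if h : (jj L n x).1.val < m ∧ y ≤ (jj L n x).2.val ∧ (jj L n x).2.val < y + m then
    p (⟨(jj L n x).1.val, h.1⟩, ⟨(jj L n x).2.val - y, by omega⟩) else a x

lemma tp_sp {L n m : ℕ} [NeZero L] (hj : Function.Injective (jj L n)) (y : ℕ) (hm : m ≤ n)
    (hy : y + m ≤ n) (p : Fin m × Fin m → Fin 2) (a : Pool.Agent.Q234.PL.box n → Fin 2)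
    (o : {v : Pool.Agent.TH235.PP.Site L // ¬ ∃ x, jj L n x = v} → Fin 2) :
    tpasteAt y p ((sp (jj L n) hj).symm (a, o)) = (sp (jj L n) hj).symm (bp (L := L) y p a, o) := by
  funext w
  by_cases h : ∃ x, jj L n x = w
  · obtain ⟨x, rfl⟩ := h
    rw [sp_symm_j]
    unfold tpasteAt bp
    rw [sp_symm_j]
  · rw [sp_symm_out (jj L n) hj _ o ⟨w, h⟩]
    unfold tpasteAt
    rw [dif_neg]
    · exact sp_symm_out (jj L n) hj a o ⟨w, h⟩
    · rintro ⟨h1, h2, h3⟩
      apply h
      have hmem : (((w.1.val : ℕ) : ℤ), ((w.2.val : ℕ) : ℤ)) ∈ Pool.Agent.Q234.PL.box n := by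
        unfold Pool.Agent.Q234.PL.box
        simp only [Finset.mem_product, Finset.mem_Ico]
        omega
      refine ⟨⟨_, hmem⟩, ?_⟩
      unfold jj Pool.Agent.H4R2.toTorus
      refine Prod.ext ?_ ?_
      · simp
      · simp

theorem main (h1 : TraceDual) : LocalBound := by
  intro L n m G _ Ψ Φ q v hnL hmn hG hq hΨ hΦ hΦk h
  have hj : Function.Injective (jj L n) := box_inj hnL
  have hfin : Fintype {v : Pool.Agent.TH235.PP.Site L // ¬ ∃ x, jj L n x = v} := Fintype.ofFinite _
  have hb : ∀ b : Fin G, (b : ℕ) * m + m ≤ n := by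
    intro b
    have : ((b : ℕ) + 1) * m ≤ G * m := Nat.mul_le_mul_right m b.2
    rw [add_mul, one_mul] at this
    omega
  set E := sp (jj L n) hj with hE
  set V : Submodule ℂ ((Pool.Agent.Q234.PL.box n → Fin 2) → ℂ) :=
    { carrier := {u | ∀ (b : Fin G) (a : Pool.Agent.Q234.PL.box n → Fin 2),
        ∑ p, v b p * u (bp (L := L) (b * m) p a) = 0}
      add_mem' := by
        intro u u' hu hu' b a
        simp only [Pi.add_apply, mul_add, Finset.sum_add_distrib]
        rw [hu b a, hu' b a, add_zero]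
      zero_mem' := by
        intro b a
        simp
      smul_mem' := by
        intro c u hu b a
        simp only [Pi.smul_apply, smul_eq_mul]
        have : ∀ p, v b p * (c * u (bp (L := L) (b * m) p a)) =
            c * (v b p * u (bp (L := L) (b * m) p a)) := fun p => by ring
        simp only [this]
        rw [← Finset.mul_sum, hu b a, mul_zero] } with hV
  have e1 : ∀ θ : (Pool.Agent.TH235.PP.Site L → Fin 2) → ℂ,
      normSq (fun x => θ (E.symm x)) = normSq θ := by
    intro θ
    unfold normSq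
    exact E.symm.sum_comp (fun s => ‖θ s‖ ^ 2)
  have e2 : ∀ θ η : (Pool.Agent.TH235.PP.Site L → Fin 2) → ℂ,
      ip (fun x => θ (E.symm x)) (fun x => η (E.symm x)) = ip θ η := by
    intro θ η
    unfold ip
    exact E.symm.sum_comp (fun s => (starRingEnd ℂ) (θ s) * η s)
  have hΦ' : (fun x => Φ (E.symm x)) ≠ 0 := by
    intro h0
    apply hΦ
    have h2 := e1 Φ
    rw [h0] at h2
    exact normSq_eq_zero (by rw [← h2]; simp [normSq])
  have key := abstract h1 V (fun x => Ψ (E.symm x)) (fun x => Φ (E.symm x)) q hq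
    (by rw [e1, hΨ]) hΦ'
    (by
      intro o b a
      rw [← hΦk b (E.symm (a, o))]
      refine Finset.sum_congr rfl fun p _ => ?_
      congr 1
      exact congrArg Φ (tp_sp hj (b * m) hmn (hb b) p a o).symm)
    (by
      intro θ' hθ'
      have h3 := h (fun s => θ' (E s)) (by
        intro b t
        obtain ⟨⟨a, o⟩, rfl⟩ := E.symm.surjective t
        rw [← hθ' o b a]
        refine Finset.sum_congr rfl fun p _ => ?_
        congr 1
        have h4 := tp_sp hj (b * m) hmn (hb b) p a o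
        rw [← hE] at h4
        simp only
        rw [h4, Equiv.apply_symm_apply])
      rw [← e1, ← e2] at h3
      simp only [Equiv.apply_symm_apply] at h3
      exact h3)
  have r1 : Pool.Agent.H4R2.redState (Pool.Agent.Q234.PL.box n) Ψ = rho (fun x => Ψ (E.symm x)) := by
    unfold Pool.Agent.H4R2.redState
    have : Pool.Agent.H4R2.normSq Ψ = 1 := hΨ
    rw [this]
    simp only [Complex.ofReal_one, inv_one, one_smul]
    exact rdm_eq (jj L n) hj Ψ
  have r2 : Pool.Agent.H4R2.redState (Pool.Agent.Q234.PL.box n) Φ =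
      ((normSq (fun x => Φ (E.symm x)) : ℝ) : ℂ)⁻¹ • rho (fun x => Φ (E.symm x)) := by
    unfold Pool.Agent.H4R2.redState
    have h5 : Pool.Agent.H4R2.normSq Φ = normSq (fun x => Φ (E.symm x)) := (e1 Φ).symm
    rw [h5]
    congr 1
    exact rdm_eq (jj L n) hj Φ
  rw [r1, r2]
  exact key

end Pool.Agent.Q298.PL.LB
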