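import Pool.Agent.Q234.PL.Stm2

/-! Job PL-TOV. -/

set_option autoImplicit false

open scoped BigOperators Matrix
open Finset Pool.Agent.TH235.PP Pool.Agent.Q234.PL

namespace Pool.Agent.Q298.PL.TOV

/-- the rows -/
def ei (G m r K : ℕ) (h : G * m + r = K) : (Fin G × Fin m) ⊕ Fin r ≃ Fin K :=
  (Equiv.sumCongr finProdFinEquiv (Equiv.refl _)).trans (finSumFinEquiv.trans (finCongr h))

lemma ei_inl (G m r K : ℕ) (h : G * m + r = K) (b : Fin G) (j : Fin m) :
    ((ei G m r K h (Sum.inl (b, j)) : Fin K) : ℕ) = j + m * b := by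
  simp [ei, finProdFinEquiv]

lemma ei_inr (G m r K : ℕ) (h : G * m + r = K) (k : Fin r) :
    ((ei G m r K h (Sum.inr k) : Fin K) : ℕ) = G * m + k := by
  simp [ei]

/-- configurations by groups of rows -/
def ee (G m r N : ℕ) (h : G * m + r = N + 1) :
    (Site (N + 1) → Fin 2) ≃ (Fin G → (Fin m → Cf N)) × (Fin r → Cf N) where
  toFun s := (fun b j x => s (x, (ei G m r (N + 1) h (Sum.inl (b, j)) : Fin (N + 1))),
    fun k x => s (x, (ei G m r (N + 1) h (Sum.inr k) : Fin (N + 1))))
  invFun tc := fun z => Sum.elim (fun bj : Fin G × Fin m => tc.1 bj.1 bj.2 z.1) (fun k => tc.2 k z.1)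
    ((ei G m r (N + 1) h).symm z.2)
  left_inv s := by
    funext ⟨x, y⟩
    obtain ⟨z, rfl⟩ := (ei G m r (N + 1) h).surjective y
    simp only [Equiv.symm_apply_apply]
    rcases z with ⟨b, j⟩ | k
    · rfl
    · rfl
  right_inv tc := by
    obtain ⟨t, c⟩ := tc
    simp only [Equiv.symm_apply_apply, Sum.elim_inl, Sum.elim_inr]

lemma ee_symm_inl (G m r N : ℕ) (h : G * m + r = N + 1) (t : Fin G → (Fin m → Cf N))
    (c : Fin r → Cf N) (x : Fin (N + 1)) (b : Fin G) (j : Fin m) :
    (ee G m r N h).symm (t, c) (x, (ei G m r (N + 1) h (Sum.inl (b, j)) : Fin (N + 1))) = t b j x := by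
  change Sum.elim (fun bj : Fin G × Fin m => t bj.1 bj.2 x) (fun k => c k x)
    ((ei G m r (N + 1) h).symm (ei G m r (N + 1) h (Sum.inl (b, j)))) = _
  rw [Equiv.symm_apply_apply]
  rfl

lemma ee_symm_inr (G m r N : ℕ) (h : G * m + r = N + 1) (t : Fin G → (Fin m → Cf N))
    (c : Fin r → Cf N) (x : Fin (N + 1)) (k : Fin r) :
    (ee G m r N h).symm (t, c) (x, (ei G m r (N + 1) h (Sum.inr k) : Fin (N + 1))) = c k x := by
  change Sum.elim (fun bj : Fin G × Fin m => t bj.1 bj.2 x) (fun k => c k x)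
    ((ei G m r (N + 1) h).symm (ei G m r (N + 1) h (Sum.inr k))) = _
  rw [Equiv.symm_apply_apply]
  rfl

lemma rowProd_ee (G m r N : ℕ) (h : G * m + r = N + 1) (Ψ : Cf N → ℂ) (t : Fin G → (Fin m → Cf N))
    (c : Fin r → Cf N) :
    rowProd Ψ ((ee G m r N h).symm (t, c)) = (∏ b, ∏ j, Ψ (t b j)) * ∏ k, Ψ (c k) := by
  unfold rowProd
  have h1 : ∏ y : ZMod (N + 1), Ψ (fun x => (ee G m r N h).symm (t, c) ((x : ZMod (N + 1)), y)) =
      ∏ y : Fin (N + 1), Ψ (fun x => (ee G m r N h).symm (t, c) (x, y)) := rfl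
  rw [h1, ← (ei G m r (N + 1) h).prod_comp, Fintype.prod_sum_type, Fintype.prod_prod_type]
  congr 1
  · refine Finset.prod_congr rfl fun b _ => Finset.prod_congr rfl fun j _ => ?_
    congr 1
    funext x
    exact ee_symm_inl G m r N h t c x b j
  · refine Finset.prod_congr rfl fun k _ => ?_
    congr 1
    funext x
    exact ee_symm_inr G m r N h t c x k

lemma normSq_prod {N k : ℕ} (Ψ : Cf N → ℂ) (h : normSq Ψ = 1) :
    normSq (fun t : Fin k → Cf N => ∏ j, Ψ (t j)) = 1 := by
  unfold normSq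
  have h1 : ∀ t : Fin k → Cf N, ‖∏ j, Ψ (t j)‖ ^ 2 = ∏ j, ‖Ψ (t j)‖ ^ 2 := by
    intro t
    rw [norm_prod, Finset.prod_pow]
  simp only [h1]
  have h2 := Finset.prod_univ_sum (fun _ : Fin k => (univ : Finset (Cf N))) (fun _ a => ‖Ψ a‖ ^ 2)
  rw [Fintype.piFinset_univ] at h2
  rw [← h2]
  apply Finset.prod_eq_one
  intro j _
  exact h

lemma paste_paste {N m : ℕ} (p q : Fin m → Fin 2) (t : Cf N) : paste p (paste q t) = paste p t := by
  funext i
  unfold paste
  split_ifs <;> rfl

lemma tpa {N m : ℕ} (y0 : ℕ) (p : Fin m × Fin m → Fin 2) (s : Site (N + 1) → Fin 2)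
    (x y : Fin (N + 1)) : tpasteAt (L := N + 1) y0 p s (x, y) =
      if h : (x : ℕ) < m ∧ y0 ≤ (y : ℕ) ∧ (y : ℕ) < y0 + m then
        p (⟨x, h.1⟩, ⟨(y : ℕ) - y0, by omega⟩) else s (x, y) := rfl

lemma paste_apply {N m : ℕ} (p : Fin m → Fin 2) (t : Cf N) (i : Fin (N + 1)) :
    paste p t i = if h : (i : ℕ) < m then p ⟨i, h⟩ else t i := rfl

lemma ee_update (G m r N : ℕ) (h : G * m + r = N + 1) (t : Fin G → (Fin m → Cf N))
    (c : Fin r → Cf N) (b : Fin G) (p : Fin m × Fin m → Fin 2) :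
    (ee G m r N h).symm (Function.update t b (fun j => paste (fun i => p (i, j)) (t b j)), c) =
      tpasteAt (b * m) p ((ee G m r N h).symm (t, c)) := by
  suffices hs : ∀ x y : Fin (N + 1),
      (ee G m r N h).symm (Function.update t b (fun j => paste (fun i => p (i, j)) (t b j)), c) (x, y) =
        tpasteAt (L := N + 1) (b * m) p ((ee G m r N h).symm (t, c)) (x, y) by
    funext ⟨x, y⟩
    exact hs x y
  intro x y
  obtain ⟨z, hz⟩ := (ei G m r (N + 1) h).surjective y
  subst hz
  refine Eq.trans ?_ (tpa (b * m) p _ x (ei G m r (N + 1) h z)).symm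
  rcases z with ⟨b', j⟩ | k
  · refine (ee_symm_inl G m r N h _ c x b' j).trans ?_
    have hval := ei_inl G m r (N + 1) h b' j
    by_cases hbb : b' = b
    · subst hbb
      rw [Function.update_self, paste_apply]
      by_cases hx : (x : Fin (N + 1)).val < m
      · rw [dif_pos hx, dif_pos ⟨hx, by rw [hval, mul_comm]; omega, by
          rw [hval, mul_comm m]; have := j.2; omega⟩]
        congr 2
        apply Fin.ext
        simp only
        rw [hval, mul_comm m, Nat.add_sub_cancel]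
      · rw [dif_neg hx, dif_neg (fun h' => hx h'.1)]
        exact (ee_symm_inl G m r N h t c x b' j).symm
    · rw [Function.update_of_ne hbb, dif_neg]
      · exact (ee_symm_inl G m r N h t c x b' j).symm
      · rintro ⟨_, h3, h4⟩
        rw [hval] at h3 h4
        have hne : (b' : ℕ) ≠ b := fun h' => hbb (Fin.ext h')
        rcases Nat.lt_or_gt_of_ne hne with h5 | h5
        · have : m * (b' + 1) ≤ m * b := Nat.mul_le_mul_left m h5
          have := j.2
          rw [mul_add, mul_one] at *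
          rw [mul_comm (b : ℕ) m] at h3
          omega
        · have : m * (b + 1) ≤ m * b' := Nat.mul_le_mul_left m h5
          rw [mul_add, mul_one] at *
          rw [mul_comm (b : ℕ) m] at h4
          omega
  · refine (ee_symm_inr G m r N h _ c x k).trans ?_
    have hval := ei_inr G m r (N + 1) h k
    rw [dif_neg]
    · exact (ee_symm_inr G m r N h t c x k).symm
    · rintro ⟨_, h3, h4⟩
      rw [hval] at h3 h4
      have h5 : (b + 1) * m ≤ G * m := Nat.mul_le_mul_right m b.2
      rw [add_mul, one_mul] at h5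
      omega

theorem main (h1 : Overlap) (h2 : TensorBound) : TorusOverlap := by
  intro N m G Ψ g hG hm hg hΨ hv φ v hv0 hker
  obtain ⟨r, hr⟩ : ∃ r, G * m + r = N + 1 := ⟨N + 1 - G * m, by omega⟩
  set e := ee G m r N hr with he
  set pa : (Fin m × Fin m → Fin 2) → (Fin m → Cf N) → (Fin m → Cf N) :=
    fun p t j => paste (fun i => p (i, j)) (t j) with hpa
  set re : (Fin m → Cf N) → (Fin m × Fin m → Fin 2) :=
    fun t ij => t ij.2 ⟨ij.1, by have := ij.1.2; omega⟩ with hre
  have hP : IsPaste pa re := by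
    refine ⟨?_, ?_, ?_⟩
    · intro p q t
      funext j
      exact paste_paste _ _ _
    · intro p t
      funext ⟨i, j⟩
      simp only [hpa, hre]
      unfold paste
      rw [dif_pos i.2]
    · intro t
      funext j i
      simp only [hpa, hre]
      unfold paste
      split_ifs <;> rfl
  set ψ : (Fin m → Cf N) → ℂ := fun t => ∏ j, Ψ (t j) with hψ
  set χ : (Fin r → Cf N) → ℂ := fun c => ∏ k, Ψ (c k) with hχ
  have hψ1 : normSq ψ = 1 := normSq_prod Ψ hΨ
  have hχ1 : normSq χ = 1 := normSq_prod Ψ hΨ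
  have hη : 0 ≤ g ^ m / 2 ^ (m * m) := by positivity
  have hcard : (Fintype.card (Fin m × Fin m → Fin 2) : ℝ) = 2 ^ (m * m) := by
    simp [Fintype.card_pi]
  have hbound : ∀ w : (Fin m × Fin m → Fin 2) → ℂ,
      g ^ m / 2 ^ (m * m) * Fintype.card (Fin m × Fin m → Fin 2) * ∑ p, ‖w p‖ ^ 2 ≤
        ∑ t, ‖∑ p, w p * ψ (pa p t)‖ ^ 2 := by
    intro w
    rw [hcard, div_mul_cancel₀ _ (by positivity)]
    set cu : (Fin m → Fin m → Fin 2) ≃ (Fin m × Fin m → Fin 2) :=
      { toFun := fun a ij => a ij.2 ij.1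
        invFun := fun p j i => p (i, j)
        left_inv := fun a => rfl
        right_inv := fun p => rfl } with hcu
    have h3 := h2 m (Fin m → Fin 2) (Cf N) (fun _ b a => Ψ (paste a b)) (fun _ => g) (fun _ => hg)
      (fun _ u => by
        have := hv u
        refine this.trans (le_of_eq ?_)
        refine Finset.sum_congr rfl fun t _ => ?_
        congr 2
        refine Finset.sum_congr rfl fun p _ => mul_comm _ _)
      (fun a => w (cu a))
    rw [Finset.prod_const, card_univ, Fintype.card_fin] at h3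
    rw [← cu.sum_comp]
    refine h3.trans (le_of_eq ?_)
    refine Finset.sum_congr rfl fun t _ => ?_
    rw [← cu.sum_comp]
    congr 2
    refine Finset.sum_congr rfl fun a _ => ?_
    rw [mul_comm]
    rfl
  have h4 := h1 G (Fin m × Fin m → Fin 2) (Fin m → Cf N) (Fin r → Cf N) pa re hP ψ χ
    (g ^ m / 2 ^ (m * m)) hψ1 hη hbound (fun x => φ (e.symm x)) v hv0 (by
      intro b t c
      rw [← hker b (e.symm (t, c))]
      refine Finset.sum_congr rfl fun p _ => ?_
      congr 2
      exact ee_update G m r N hr t c b p)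
  rw [hχ1, mul_one] at h4
  have e1 : normSq (fun x => φ (e.symm x)) = normSq φ := by
    unfold normSq
    exact e.symm.sum_comp (fun s => ‖φ s‖ ^ 2)
  have e2 : ip (fun x => φ (e.symm x)) (fun x => (∏ b, ψ (x.1 b)) * χ x.2) = ip φ (rowProd Ψ) := by
    unfold ip
    rw [← e.symm.sum_comp]
    refine Finset.sum_congr rfl fun x _ => ?_
    obtain ⟨t, c⟩ := x
    rw [he, rowProd_ee]
  rw [e1, e2] at h4
  exact h4

end Pool.Agent.Q298.PL.TOV
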