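import Pool.Agent.Q234.PL.Stm

/-! Basics on `ip` and `normSq`. -/

set_option autoImplicit false

open scoped BigOperators Matrix
open Finset Pool.Agent.TH235.PP Pool.Agent.Q234.PL

namespace Pool.Agent.Q298.PL

variable {n : Type} [Fintype n]

lemma ip_dot (x y : n → ℂ) : ip x y = star x ⬝ᵥ y := by
  unfold ip dotProduct
  rfl

lemma ip_self (x : n → ℂ) : ip x x = ((normSq x : ℝ) : ℂ) := by
  unfold ip normSq
  push_cast
  refine Finset.sum_congr rfl fun s _ => ?_
  rw [mul_comm, Complex.mul_conj, Complex.normSq_eq_norm_sq]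
  push_cast
  rfl

lemma re_ip_self (x : n → ℂ) : (ip x x).re = normSq x := by
  rw [ip_self]; simp

lemma normSq_nonneg (x : n → ℂ) : 0 ≤ normSq x := by
  unfold normSq
  exact Finset.sum_nonneg fun s _ => by positivity

lemma ip_mulVec (M : Matrix n n ℂ) (x y : n → ℂ) : ip x (M *ᵥ y) = ip (Mᴴ *ᵥ x) y := by
  rw [ip_dot, ip_dot, Matrix.star_mulVec, Matrix.conjTranspose_conjTranspose,
    Matrix.dotProduct_mulVec]

lemma ip_herm {M : Matrix n n ℂ} (h : M.IsHermitian) (x y : n → ℂ) :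
    ip x (M *ᵥ y) = ip (M *ᵥ x) y := by
  rw [ip_mulVec, h.eq]

lemma ip_add_right (x y z : n → ℂ) : ip x (y + z) = ip x y + ip x z := by
  simp only [ip_dot, dotProduct_add]

lemma ip_sub_right (x y z : n → ℂ) : ip x (y - z) = ip x y - ip x z := by
  simp only [ip_dot, dotProduct_sub]

lemma ip_neg_right (x y : n → ℂ) : ip x (-y) = -ip x y := by
  simp only [ip_dot, dotProduct_neg]

lemma ip_smul_right (c : ℂ) (x y : n → ℂ) : ip x (c • y) = c * ip x y := by
  simp only [ip_dot, dotProduct_smul, smul_eq_mul]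

lemma ip_add_left (x y z : n → ℂ) : ip (x + y) z = ip x z + ip y z := by
  simp only [ip_dot, star_add, add_dotProduct]

lemma ip_sub_left (x y z : n → ℂ) : ip (x - y) z = ip x z - ip y z := by
  simp only [ip_dot, star_sub, sub_dotProduct]

lemma ip_smul_left (c : ℂ) (x y : n → ℂ) : ip (c • x) y = (starRingEnd ℂ) c * ip x y := by
  simp only [ip_dot, star_smul, smul_dotProduct, smul_eq_mul]
  rfl

lemma ip_zero_right (x : n → ℂ) : ip x 0 = 0 := by simp [ip_dot]

lemma ip_sum_right {ι : Type} (s : Finset ι) (x : n → ℂ) (f : ι → n → ℂ) :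
    ip x (∑ i ∈ s, f i) = ∑ i ∈ s, ip x (f i) := by
  simp only [ip_dot, dotProduct_sum]

lemma ip_conj (x y : n → ℂ) : (starRingEnd ℂ) (ip x y) = ip y x := by
  unfold ip
  rw [map_sum]
  refine Finset.sum_congr rfl fun s _ => ?_
  rw [map_mul, Complex.conj_conj, mul_comm]

lemma normSq_smul (c : ℂ) (x : n → ℂ) : normSq (c • x) = ‖c‖ ^ 2 * normSq x := by
  unfold normSq
  rw [Finset.mul_sum]
  refine Finset.sum_congr rfl fun s _ => ?_
  simp only [Pi.smul_apply, smul_eq_mul, norm_mul, mul_pow]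

lemma normSq_eq_zero {x : n → ℂ} (h : normSq x = 0) : x = 0 := by
  unfold normSq at h
  rw [Finset.sum_eq_zero_iff_of_nonneg (fun s _ => by positivity)] at h
  funext s
  have := h s (mem_univ s)
  simpa using this

lemma normSq_neg (x : n → ℂ) : normSq (-x) = normSq x := by
  unfold normSq
  simp

/-- isometries -/
lemma normSq_of_isom {M : Matrix n n ℂ} [DecidableEq n] (h : Mᴴ * M = 1) (x : n → ℂ) :
    normSq (M *ᵥ x) = normSq x := by
  have : ip (M *ᵥ x) (M *ᵥ x) = ip x x := by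
    rw [ip_mulVec, Matrix.mulVec_mulVec, h, Matrix.one_mulVec]
  rw [ip_self, ip_self] at this
  exact_mod_cast this

lemma cs (x y : n → ℂ) : ‖ip x y‖ ^ 2 ≤ normSq x * normSq y := by
  unfold ip normSq
  calc ‖∑ s, (starRingEnd ℂ) (x s) * y s‖ ^ 2 ≤ (∑ s, ‖x s‖ * ‖y s‖) ^ 2 := by
        apply pow_le_pow_left₀ (norm_nonneg _)
        refine (norm_sum_le _ _).trans (le_of_eq ?_)
        refine Finset.sum_congr rfl fun s _ => ?_
        rw [norm_mul, RCLike.norm_conj]
    _ ≤ _ := Finset.sum_mul_sq_le_sq_mul_sq _ _ _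

/-- equality in the Cauchy-Schwarz inequality for unit vectors -/
lemma normSq_sub_proj {Ψ : n → ℂ} (h : normSq Ψ = 1) (φ : n → ℂ) :
    normSq (φ - ip Ψ φ • Ψ) = normSq φ - ‖ip Ψ φ‖ ^ 2 := by
  have h1 : (normSq (φ - ip Ψ φ • Ψ) : ℂ) = ((normSq φ - ‖ip Ψ φ‖ ^ 2 : ℝ) : ℂ) := by
    rw [← ip_self]
    simp only [ip_sub_left, ip_sub_right, ip_smul_left, ip_smul_right]
    rw [ip_self φ, ip_self Ψ, h]
    rw [← ip_conj Ψ φ]
    have h2 : ip Ψ φ * (starRingEnd ℂ) (ip Ψ φ) = ((‖ip Ψ φ‖ ^ 2 : ℝ) : ℂ) := by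
      rw [Complex.mul_conj, Complex.normSq_eq_norm_sq]
    push_cast at h2 ⊢
    rw [← h2]
    ring
  exact_mod_cast h1

lemma normSq_pos_card (x : n → ℂ) : x = 0 ∨ 0 < normSq x := by
  rcases (normSq_nonneg x).lt_or_eq with h | h
  · exact Or.inr h
  · exact Or.inl (normSq_eq_zero h.symm)

end Pool.Agent.Q298.PL
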