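import Pool.Agent.Q298.PL.Proj
import Pool.Agent.Q234.PL.Stm2

/-! Job PL-LB: the abstract part. -/

set_option autoImplicit false

open scoped BigOperators Matrix InnerProductSpace
open Finset Pool.Agent.TH235.PP Pool.Agent.Q234.PL

namespace Pool.Agent.Q298.PL.LB

open Pool.Agent.Q298.PL

variable {A : Type} [Fintype A] [DecidableEq A]

omit [DecidableEq A] in
lemma ip_inner (x y : A → ℂ) :
    ip x y = ⟪(WithLp.toLp 2 x : EuclideanSpace ℂ A), WithLp.toLp 2 y⟫_ℂ := by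
  rw [EuclideanSpace.inner_eq_star_dotProduct, ip_dot, dotProduct_comm]

/-- orthogonal projections as matrices -/
lemma exists_B (V : Submodule ℂ (A → ℂ)) :
    ∃ B : Matrix A A ℂ, B.IsHermitian ∧ (∀ φ, B *ᵥ φ ∈ V) ∧ ∀ φ ∈ V, B *ᵥ φ = φ := by
  set L : EuclideanSpace ℂ A ≃ₗ[ℂ] (A → ℂ) := WithLp.linearEquiv 2 ℂ (A → ℂ) with hL
  set V' : Submodule ℂ (EuclideanSpace ℂ A) := V.comap L.toLinearMap with hV'
  set f : (A → ℂ) →ₗ[ℂ] (A → ℂ) :=
    L.toLinearMap ∘ₗ (V'.starProjection : EuclideanSpace ℂ A →ₗ[ℂ] EuclideanSpace ℂ A) ∘ₗ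
      L.symm.toLinearMap with hf
  have hfa : ∀ φ, f φ = L (V'.starProjection (L.symm φ)) := fun φ => rfl
  have hB : ∀ φ, (LinearMap.toMatrix' f) *ᵥ φ = f φ := fun φ => by
    rw [LinearMap.toMatrix'_mulVec]
  refine ⟨LinearMap.toMatrix' f, ?_, ?_, ?_⟩
  · have hsym : ∀ x y, ip (LinearMap.toMatrix' f *ᵥ x) y = ip x (LinearMap.toMatrix' f *ᵥ y) := by
      intro x y
      rw [hB, hB, ip_inner, ip_inner]
      exact Submodule.inner_starProjection_left_eq_right V' (L.symm x) (L.symm y)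
    unfold Matrix.IsHermitian
    ext a b
    have h1 := hsym (Pi.single a 1) (Pi.single b 1)
    rw [ip_dot, ip_dot] at h1
    rw [Matrix.conjTranspose_apply]
    have e1 : star (LinearMap.toMatrix' f *ᵥ Pi.single a 1) ⬝ᵥ Pi.single b (1 : ℂ) =
        star (LinearMap.toMatrix' f b a) := by
      rw [dotProduct_single, mul_one, Pi.star_apply, Matrix.mulVec_single_one]
      rfl
    have e2 : star (Pi.single a (1 : ℂ)) ⬝ᵥ (LinearMap.toMatrix' f *ᵥ Pi.single b 1) =
        LinearMap.toMatrix' f a b := by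
      rw [Matrix.mulVec_single_one]
      have : star (Pi.single a (1 : ℂ) : A → ℂ) = Pi.single a 1 := by
        funext c
        rw [Pi.star_apply]
        by_cases hc : c = a
        · subst hc
          simp
        · rw [Pi.single_eq_of_ne hc]
          simp
      rw [this, single_dotProduct, one_mul]
      rfl
    rw [e1, e2] at h1
    exact h1
  · intro φ
    rw [hB, hfa]
    exact Submodule.starProjection_apply_mem V' _
  · intro φ hφ
    rw [hB, hfa]
    have : V'.starProjection (L.symm φ) = L.symm φ := by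
      rw [Submodule.starProjection_eq_self_iff]
      rw [hV', Submodule.mem_comap]
      simpa using hφ
    rw [this]
    simp

variable {O : Type} [Fintype O]

/-- the reduced density matrix -/
noncomputable def rho (θ : A × O → ℂ) : Matrix A A ℂ := fun a b =>
  ∑ o, θ (a, o) * (starRingEnd ℂ) (θ (b, o))

omit [DecidableEq A] in
lemma trace_mul_rho (B : Matrix A A ℂ) (θ : A × O → ℂ) :
    (B * rho θ).trace = ∑ o, ip (fun a => θ (a, o)) (B *ᵥ fun a => θ (a, o)) := by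
  unfold Matrix.trace
  simp only [Matrix.diag_apply, Matrix.mul_apply]
  unfold rho ip Matrix.mulVec dotProduct
  simp only [Finset.mul_sum]
  conv_rhs => rw [Finset.sum_comm]
  refine Finset.sum_congr rfl fun a _ => ?_
  conv_rhs => rw [Finset.sum_comm]
  refine Finset.sum_congr rfl fun b _ => Finset.sum_congr rfl fun o _ => ?_
  ring

omit [DecidableEq A] in
lemma normSq_slice (θ : A × O → ℂ) : normSq θ = ∑ o, normSq (fun a => θ (a, o)) := by
  unfold normSq
  rw [Fintype.sum_prod_type, Finset.sum_comm]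

omit [DecidableEq A] in
lemma ip_slice (θ η : A × O → ℂ) : ip θ η = ∑ o, ip (fun a => θ (a, o)) (fun a => η (a, o)) := by
  unfold ip
  rw [Fintype.sum_prod_type, Finset.sum_comm]

theorem abstract (hTD : TraceDual) (V : Submodule ℂ (A → ℂ)) (Ψ Φ : A × O → ℂ) (q : ℝ)
    (hq : 0 ≤ q) (hΨ : normSq Ψ = 1) (hΦ : Φ ≠ 0) (hΦV : ∀ o, (fun a => Φ (a, o)) ∈ V)
    (h : ∀ θ : A × O → ℂ, (∀ o, (fun a => θ (a, o)) ∈ V) → ‖ip θ Ψ‖ ^ 2 ≤ q * normSq θ) :
    2 * (1 - q) ≤ Pool.Agent.H4R2.traceNorm (rho Ψ - ((normSq Φ : ℝ) : ℂ)⁻¹ • rho Φ) := by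
  obtain ⟨B, hB, hBV, hBid⟩ := exists_B V
  have hBB : B * B = B := by
    apply Matrix.ext_of_mulVec_single
    intro i
    rw [← Matrix.mulVec_mulVec]
    exact hBid _ (hBV _)
  -- the unitary `1 - 2 B`
  have hU : (1 - (2 : ℂ) • B)ᴴ * (1 - (2 : ℂ) • B) = 1 := by
    have e1 : (1 - (2 : ℂ) • B)ᴴ = 1 - (2 : ℂ) • B := by
      rw [Matrix.conjTranspose_sub, Matrix.conjTranspose_smul, hB.eq, Matrix.conjTranspose_one]
      simp
    rw [e1]
    have e2 : (1 - (2 : ℂ) • B) * (1 - (2 : ℂ) • B) = 1 - (4 : ℂ) • B + (4 : ℂ) • (B * B) := by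
      have h4 : (4 : ℂ) • B = (2 : ℂ) • B + (2 : ℂ) • B := by rw [← add_smul]; norm_num
      have h5 : ((2 : ℂ) • B) * ((2 : ℂ) • B) = (4 : ℂ) • (B * B) := by
        rw [Matrix.smul_mul, Matrix.mul_smul, smul_smul]
        norm_num
      rw [sub_mul, mul_sub, mul_sub, h5, one_mul, one_mul, mul_one, h4]
      abel
    rw [e2, hBB]
    abel
  set θ : A × O → ℂ := fun ao => (B *ᵥ fun a => Ψ (a, ao.2)) ao.1 with hθ
  have hsl : ∀ o, (fun a => θ (a, o)) = B *ᵥ fun a => Ψ (a, o) := fun o => rfl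
  have hθV : ∀ o, (fun a => θ (a, o)) ∈ V := fun o => by rw [hsl]; exact hBV _
  have hΨ0 : ip θ Ψ = (B * rho Ψ).trace := by
    rw [trace_mul_rho, ip_slice]
    refine Finset.sum_congr rfl fun o _ => ?_
    rw [hsl, ip_herm hB]
  have hθn : ((normSq θ : ℝ) : ℂ) = (B * rho Ψ).trace := by
    rw [trace_mul_rho, normSq_slice]
    push_cast
    refine Finset.sum_congr rfl fun o _ => ?_
    rw [hsl, ← ip_self, ← ip_herm hB, Matrix.mulVec_mulVec, hBB]
  have hx0 := normSq_nonneg θ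
  have hx : normSq θ ≤ q := by
    have h1 := h θ hθV
    rw [hΨ0, ← hθn, Complex.norm_real, Real.norm_eq_abs, sq_abs] at h1
    rcases hx0.lt_or_eq with h2 | h2
    · nlinarith
    · rw [← h2]; exact hq
  have hΦn : normSq Φ ≠ 0 := fun h0 => hΦ (normSq_eq_zero h0)
  have htB : (B * rho Φ).trace = ((normSq Φ : ℝ) : ℂ) := by
    rw [trace_mul_rho, normSq_slice]
    push_cast
    refine Finset.sum_congr rfl fun o _ => ?_
    rw [hBid _ (hΦV o), ip_self]
  have ht1 : ∀ ξ : A × O → ℂ, (rho ξ).trace = ((normSq ξ : ℝ) : ℂ) := by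
    intro ξ
    have := trace_mul_rho (1 : Matrix A A ℂ) ξ
    rw [one_mul] at this
    rw [this, normSq_slice]
    push_cast
    refine Finset.sum_congr rfl fun o _ => ?_
    rw [Matrix.one_mulVec, ip_self]
  have h2 := hTD A (1 - (2 : ℂ) • B) (rho Ψ - ((normSq Φ : ℝ) : ℂ)⁻¹ • rho Φ)
    (fun φ => (normSq_of_isom hU φ).le)
  refine le_trans ?_ h2
  have hΦc : ((normSq Φ : ℝ) : ℂ) ≠ 0 := by exact_mod_cast hΦn
  have e3 : ((1 - (2 : ℂ) • B) * (rho Ψ - ((normSq Φ : ℝ) : ℂ)⁻¹ • rho Φ)).trace =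
      ((2 * (1 - normSq θ) : ℝ) : ℂ) := by
    rw [sub_mul, one_mul, Matrix.trace_sub, Matrix.trace_sub, Matrix.trace_smul, ht1, ht1, hΨ,
      Matrix.smul_mul, Matrix.trace_smul, mul_sub, Matrix.trace_sub, Matrix.mul_smul,
      Matrix.trace_smul, htB, ← hθn]
    simp only [smul_eq_mul]
    rw [inv_mul_cancel₀ hΦc]
    push_cast
    ring
  rw [e3, Complex.norm_real, Real.norm_eq_abs]
  refine le_trans ?_ (le_abs_self _)
  linarith

end Pool.Agent.Q298.PL.LB
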