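import Pool.Agent.Q298.PL.Bas

/-! Change of basis for Majorana operators. -/

set_option autoImplicit false

open scoped BigOperators Matrix
open Finset Pool.Agent.TH235.PP Pool.Agent.Q234.PL

namespace Pool.Agent.Q298.PL

variable {n : Type} [Fintype n] [DecidableEq n]

/-- the anticommutation relations in one formula -/
lemma anti {ι : Type} [DecidableEq ι] {γ : ι → Matrix n n ℂ} (h : IsMaj γ) (i j : ι) :
    γ i * γ j + γ j * γ i = (if i = j then (2 : ℂ) else 0) • (1 : Matrix n n ℂ) := by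
  split_ifs with hij
  · subst hij
    rw [h.2.1, two_smul]
  · rw [h.2.2 i j hij]
    simp

/-- converse -/
lemma isMaj_of_anti {ι : Type} [DecidableEq ι] {γ : ι → Matrix n n ℂ} (h1 : ∀ i, (γ i).IsHermitian)
    (h : ∀ i j, γ i * γ j + γ j * γ i = (if i = j then (2 : ℂ) else 0) • (1 : Matrix n n ℂ)) :
    IsMaj γ := by
  refine ⟨h1, fun i => ?_, fun i j hij => ?_⟩
  · have := h i i
    rw [if_pos rfl, ← two_smul ℂ] at this
    exact smul_right_injective _ (two_ne_zero' ℂ) this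
  · have := h i j
    rw [if_neg hij, zero_smul] at this
    exact eq_neg_of_add_eq_zero_left this

lemma lin_anti {ι ι' : Type} [Fintype ι] [DecidableEq ι] {γ : ι → Matrix n n ℂ}
    (h : IsMaj γ) (f g : ι → ℝ) :
    (∑ i, ((f i : ℝ) : ℂ) • γ i) * (∑ i, ((g i : ℝ) : ℂ) • γ i) +
      (∑ i, ((g i : ℝ) : ℂ) • γ i) * (∑ i, ((f i : ℝ) : ℂ) • γ i) =
      (((2 * (f ⬝ᵥ g) : ℝ)) : ℂ) • (1 : Matrix n n ℂ) := by
  have e1 : (∑ i, ((f i : ℝ) : ℂ) • γ i) * (∑ i, ((g i : ℝ) : ℂ) • γ i) =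
      ∑ i, ∑ j, (((f i * g j : ℝ)) : ℂ) • (γ i * γ j) := by
    rw [Finset.sum_mul]
    refine Finset.sum_congr rfl fun i _ => ?_
    rw [Finset.mul_sum]
    refine Finset.sum_congr rfl fun j _ => ?_
    rw [Matrix.smul_mul, Matrix.mul_smul, smul_smul]
    push_cast
    rfl
  have e2 : (∑ i, ((g i : ℝ) : ℂ) • γ i) * (∑ i, ((f i : ℝ) : ℂ) • γ i) =
      ∑ i, ∑ j, (((f i * g j : ℝ)) : ℂ) • (γ j * γ i) := by
    rw [Finset.sum_mul, Finset.sum_comm]
    rw [Finset.sum_comm]
    have : ∀ i, ((g i : ℝ) : ℂ) • γ i * (∑ j, ((f j : ℝ) : ℂ) • γ j) =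
        ∑ j, (((f j * g i : ℝ)) : ℂ) • (γ i * γ j) := by
      intro i
      rw [Finset.mul_sum]
      refine Finset.sum_congr rfl fun j _ => ?_
      rw [Matrix.smul_mul, Matrix.mul_smul, smul_smul]
      push_cast
      rw [mul_comm]
    simp only [this]
    rw [Finset.sum_comm]
  rw [e1, e2, ← Finset.sum_add_distrib]
  have : ∀ i, (∑ j, (((f i * g j : ℝ)) : ℂ) • (γ i * γ j) +
      ∑ j, (((f i * g j : ℝ)) : ℂ) • (γ j * γ i)) = (((2 * (f i * g i) : ℝ)) : ℂ) • (1 : Matrix n n ℂ) := by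
    intro i
    rw [← Finset.sum_add_distrib]
    rw [Finset.sum_eq_single i]
    · rw [← smul_add, anti h, if_pos rfl, smul_smul]
      push_cast
      congr 1
      ring
    · intro j _ hj
      rw [← smul_add, anti h, if_neg (Ne.symm hj)]
      simp
    · intro hi
      exact absurd (mem_univ i) hi
  simp only [this]
  rw [← Finset.sum_smul]
  congr 1
  unfold dotProduct
  push_cast
  rw [Finset.mul_sum]

/-- orthonormal combinations of Majorana operators -/
lemma maj_comb {ι ι' : Type} [Fintype ι] [DecidableEq ι] [DecidableEq ι'] {γ : ι → Matrix n n ℂ}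
    (h : IsMaj γ) (W : Matrix ι ι' ℝ) (hW : Wᵀ * W = 1) :
    IsMaj (fun j : ι' => ∑ i, ((W i j : ℝ) : ℂ) • γ i) := by
  apply isMaj_of_anti
  · intro j
    unfold Matrix.IsHermitian
    rw [Matrix.conjTranspose_sum]
    refine Finset.sum_congr rfl fun i _ => ?_
    rw [Matrix.conjTranspose_smul, (h.1 i).eq]
    congr 1
    exact Complex.conj_ofReal _
  · intro j k
    rw [lin_anti (ι' := ι') h (fun i => W i j) (fun i => W i k)]
    congr 1
    have : (fun i => W i j) ⬝ᵥ (fun i => W i k) = (Wᵀ * W) j k := rfl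
    rw [this, hW, Matrix.one_apply]
    split_ifs <;> simp

/-- two families -/
lemma maj_comb2 {K : ℕ} {A B : Fin K → Matrix n n ℂ} (h : IsMaj (Sum.elim A B))
    (F V : Matrix (Fin K) (Fin K) ℝ) (hF : Fᵀ * F = 1) (hV : Vᵀ * V = 1) :
    IsMaj (Sum.elim (fun j => ∑ i, ((F i j : ℝ) : ℂ) • A i) (fun j => ∑ i, ((V i j : ℝ) : ℂ) • B i)) := by
  have := maj_comb h (Matrix.fromBlocks F 0 0 V) (by
    rw [Matrix.fromBlocks_transpose, Matrix.fromBlocks_multiply]
    simp [hF, hV, Matrix.fromBlocks_one])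
  convert this using 1
  funext j
  rcases j with j | j
  · simp [Fintype.sum_sum_type]
  · simp [Fintype.sum_sum_type]

end Pool.Agent.Q298.PL
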