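import Pool.Agent.Q298.PL.Maj

/-! The projection onto the vacuum. -/

set_option autoImplicit false

open scoped BigOperators Matrix
open Finset Pool.Agent.TH235.PP Pool.Agent.Q234.PL

namespace Pool.Agent.Q298.PL

variable {n : Type} [Fintype n] [DecidableEq n]

/-- `i A_j B_j` -/
noncomputable def tt {K : ℕ} (A B : Fin K → Matrix n n ℂ) (j : Fin K) : Matrix n n ℂ :=
  Complex.I • (A j * B j)

/-- `(1 - T_j) / 2` -/
noncomputable def pp {K : ℕ} (A B : Fin K → Matrix n n ℂ) (j : Fin K) : Matrix n n ℂ :=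
  (1 / 2 : ℂ) • (1 - tt A B j)

section

variable {K : ℕ} {A B : Fin K → Matrix n n ℂ}

lemma mAA (h : IsMaj (Sum.elim A B)) (i : Fin K) : A i * A i = 1 := h.2.1 (Sum.inl i)
lemma mBB (h : IsMaj (Sum.elim A B)) (i : Fin K) : B i * B i = 1 := h.2.1 (Sum.inr i)
lemma mAA' (h : IsMaj (Sum.elim A B)) {i j : Fin K} (hij : i ≠ j) : A i * A j = -(A j * A i) :=
  h.2.2 (Sum.inl i) (Sum.inl j) (by simpa using hij)
lemma mBB' (h : IsMaj (Sum.elim A B)) {i j : Fin K} (hij : i ≠ j) : B i * B j = -(B j * B i) :=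
  h.2.2 (Sum.inr i) (Sum.inr j) (by simpa using hij)
lemma mAB (h : IsMaj (Sum.elim A B)) (i j : Fin K) : A i * B j = -(B j * A i) :=
  h.2.2 (Sum.inl i) (Sum.inr j) (by simp)
lemma mBA (h : IsMaj (Sum.elim A B)) (i j : Fin K) : B i * A j = -(A j * B i) :=
  h.2.2 (Sum.inr i) (Sum.inl j) (by simp)

lemma tt_herm (h : IsMaj (Sum.elim A B)) (j : Fin K) : (tt A B j).IsHermitian := by
  unfold Matrix.IsHermitian tt
  rw [Matrix.conjTranspose_smul, Matrix.conjTranspose_mul]
  have h1 : (A j)ᴴ = A j := h.1 (Sum.inl j)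
  have h2 : (B j)ᴴ = B j := h.1 (Sum.inr j)
  rw [h1, h2, mBA h]
  simp

lemma tt_sq (h : IsMaj (Sum.elim A B)) (j : Fin K) : tt A B j * tt A B j = 1 := by
  unfold tt
  rw [Matrix.smul_mul, Matrix.mul_smul, smul_smul, Complex.I_mul_I]
  have : A j * B j * (A j * B j) = -1 := by
    calc A j * B j * (A j * B j) = A j * (B j * A j) * B j := by simp only [mul_assoc]
      _ = -((A j * A j) * (B j * B j)) := by rw [mBA h]; simp only [mul_neg, neg_mul, mul_assoc]
      _ = -1 := by rw [mAA h, mBB h, mul_one]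
  rw [this]
  simp

lemma A_tt (h : IsMaj (Sum.elim A B)) {i j : Fin K} (hij : i ≠ j) :
    A i * tt A B j = tt A B j * A i := by
  unfold tt
  rw [Matrix.mul_smul, Matrix.smul_mul]
  congr 1
  calc A i * (A j * B j) = (A i * A j) * B j := by simp only [mul_assoc]
    _ = -(A j * (A i * B j)) := by rw [mAA' h hij]; simp only [neg_mul, mul_assoc]
    _ = A j * B j * A i := by rw [mAB h]; simp only [mul_neg, neg_neg, mul_assoc]

lemma B_tt (h : IsMaj (Sum.elim A B)) {i j : Fin K} (hij : i ≠ j) :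
    B i * tt A B j = tt A B j * B i := by
  unfold tt
  rw [Matrix.mul_smul, Matrix.smul_mul]
  congr 1
  calc B i * (A j * B j) = (B i * A j) * B j := by simp only [mul_assoc]
    _ = -(A j * (B i * B j)) := by rw [mBA h]; simp only [neg_mul, mul_assoc]
    _ = A j * B j * B i := by rw [mBB' h hij]; simp only [mul_neg, neg_neg, mul_assoc]

lemma A_tt_self (h : IsMaj (Sum.elim A B)) (j : Fin K) :
    A j * tt A B j = -(tt A B j * A j) := by
  unfold tt
  rw [Matrix.mul_smul, Matrix.smul_mul, ← smul_neg]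
  congr 1
  calc A j * (A j * B j) = -(A j * (B j * A j)) := by rw [mAB h]; simp only [mul_neg]
    _ = -(A j * B j * A j) := by simp only [mul_assoc]

lemma tt_comm (h : IsMaj (Sum.elim A B)) {i j : Fin K} (hij : i ≠ j) :
    tt A B i * tt A B j = tt A B j * tt A B i := by
  have h1 : tt A B i = Complex.I • (A i * B i) := rfl
  rw [h1, Matrix.smul_mul, Matrix.mul_smul]
  congr 1
  rw [mul_assoc, B_tt h hij, ← mul_assoc, A_tt h hij, mul_assoc]

lemma pp_herm (h : IsMaj (Sum.elim A B)) (j : Fin K) : (pp A B j).IsHermitian := by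
  unfold Matrix.IsHermitian pp
  rw [Matrix.conjTranspose_smul, Matrix.conjTranspose_sub, (tt_herm h j).eq,
    Matrix.conjTranspose_one]
  congr 1
  simp

lemma pp_idem (h : IsMaj (Sum.elim A B)) (j : Fin K) : pp A B j * pp A B j = pp A B j := by
  unfold pp
  rw [Matrix.smul_mul, Matrix.mul_smul, smul_smul]
  have : (1 - tt A B j) * (1 - tt A B j) = (2 : ℂ) • (1 - tt A B j) := by
    rw [mul_sub, sub_mul, sub_mul, tt_sq h, two_smul]
    simp only [one_mul, mul_one]
    abel
  rw [this, smul_smul]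
  congr 1
  norm_num

lemma tt_eq (j : Fin K) : tt A B j = 1 - (2 : ℂ) • pp A B j := by
  unfold pp
  rw [smul_smul]
  norm_num

lemma tt_pp (h : IsMaj (Sum.elim A B)) (j : Fin K) : tt A B j * pp A B j = -pp A B j := by
  rw [tt_eq, sub_mul, Matrix.smul_mul, pp_idem h, one_mul, two_smul]
  abel

end

/-- Pythagoras -/
lemma pyth {P : Matrix n n ℂ} (h : P.IsHermitian) (h2 : P * P = P) (φ : n → ℂ) :
    normSq φ - normSq (P *ᵥ φ) = normSq ((1 - P) *ᵥ φ) := by
  have e : ip (P *ᵥ φ) (P *ᵥ φ) = ip φ (P *ᵥ φ) := by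
    rw [← ip_herm h, Matrix.mulVec_mulVec, h2]
  have e' : ip (P *ᵥ φ) φ = ip φ (P *ᵥ φ) := by
    rw [← ip_herm h]
  have h1 : ((normSq φ - normSq (P *ᵥ φ) : ℝ) : ℂ) = ((normSq ((1 - P) *ᵥ φ) : ℝ) : ℂ) := by
    rw [← ip_self, Matrix.sub_mulVec, Matrix.one_mulVec, ip_sub_left, ip_sub_right, ip_sub_right, e,
      e', ← e]
    push_cast
    rw [← ip_self, ← ip_self]
    ring
  exact_mod_cast h1

lemma ip_proj {P : Matrix n n ℂ} (h : P.IsHermitian) (h2 : P * P = P) (φ : n → ℂ) :
    (ip φ (P *ᵥ φ)).re = normSq (P *ᵥ φ) := by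
  have e : ip (P *ᵥ φ) (P *ᵥ φ) = ip φ (P *ᵥ φ) := by
    rw [← ip_herm h, Matrix.mulVec_mulVec, h2]
  rw [← e, re_ip_self]

lemma proj_le {P : Matrix n n ℂ} (h : P.IsHermitian) (h2 : P * P = P) (φ : n → ℂ) :
    normSq (P *ᵥ φ) ≤ normSq φ := by
  have := pyth h h2 φ
  have := normSq_nonneg ((1 - P) *ᵥ φ)
  linarith

theorem exists_proj {K : ℕ} {A B : Fin K → Matrix n n ℂ} (h : IsMaj (Sum.elim A B))
    (S : Finset (Fin K)) :
    ∃ P : Matrix n n ℂ, P.IsHermitian ∧ P * P = P ∧
      (∀ X : Matrix n n ℂ, (∀ j ∈ S, X * tt A B j = tt A B j * X) → X * P = P * X) ∧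
      (∀ j ∈ S, tt A B j * P = -P) ∧ P.trace * 2 ^ S.card = Fintype.card n ∧
      ∀ φ : n → ℂ, normSq φ - normSq (P *ᵥ φ) ≤ ∑ j ∈ S, (normSq φ - normSq (pp A B j *ᵥ φ)) := by
  classical
  induction S using Finset.induction_on with
  | empty =>
    refine ⟨1, Matrix.isHermitian_one, one_mul _, fun X _ => by simp, by simp, by simp, ?_⟩
    intro φ
    simp
  | @insert j S hj ih =>
    obtain ⟨P, hP, hPP, hc, ht, htr, hn⟩ := ih
    have hT : tt A B j * P = P * tt A B j := hc _ fun i hi => tt_comm h (by rintro rfl; exact hj hi)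
    have hp : pp A B j * P = P * pp A B j := by
      unfold pp
      rw [Matrix.smul_mul, Matrix.mul_smul, sub_mul, mul_sub, hT, one_mul, mul_one]
    refine ⟨P * pp A B j, ?_, ?_, ?_, ?_, ?_, ?_⟩
    · unfold Matrix.IsHermitian
      rw [Matrix.conjTranspose_mul, hP.eq, (pp_herm h j).eq, hp]
    · calc P * pp A B j * (P * pp A B j) = P * (pp A B j * P) * pp A B j := by
            simp only [mul_assoc]
        _ = (P * P) * (pp A B j * pp A B j) := by rw [hp]; simp only [mul_assoc]
        _ = P * pp A B j := by rw [hPP, pp_idem h]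
    · intro X hX
      have h1 : X * P = P * X := hc X fun i hi => hX i (mem_insert_of_mem hi)
      have h2 : X * pp A B j = pp A B j * X := by
        unfold pp
        rw [Matrix.smul_mul, Matrix.mul_smul, sub_mul, mul_sub, hX j (mem_insert_self _ _), one_mul,
          mul_one]
      rw [← mul_assoc, h1, mul_assoc, h2, mul_assoc]
    · intro i hi
      rw [mem_insert] at hi
      rcases hi with rfl | hi
      · rw [← mul_assoc, hT, mul_assoc, tt_pp h, mul_neg]
      · rw [← mul_assoc, ht i hi, neg_mul]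
    · rw [card_insert_of_notMem hj, pow_succ]
      have h0 : (P * tt A B j).trace = 0 := by
        have hA : A j * P = P * A j := hc _ fun i hi => A_tt h (by rintro rfl; exact hj hi)
        have e1 : (P * tt A B j).trace = -(P * tt A B j).trace := by
          calc (P * tt A B j).trace = (P * tt A B j * (A j * A j)).trace := by rw [mAA h, mul_one]
            _ = (P * tt A B j * A j * A j).trace := by rw [mul_assoc (P * tt A B j)]
            _ = (A j * (P * tt A B j * A j)).trace := Matrix.trace_mul_comm _ _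
            _ = (P * (A j * tt A B j) * A j).trace := by
                rw [← mul_assoc, ← mul_assoc, hA, mul_assoc P (A j)]
            _ = (-(P * tt A B j * (A j * A j))).trace := by
                rw [A_tt_self h]
                simp only [mul_neg, neg_mul, mul_assoc]
            _ = -(P * tt A B j).trace := by rw [mAA h, mul_one, Matrix.trace_neg]
        have := self_eq_neg.mp e1
        exact this
      have h1 : (P * pp A B j).trace = 1 / 2 * P.trace := by
        unfold pp
        rw [Matrix.mul_smul, Matrix.trace_smul, mul_sub, Matrix.trace_sub, h0, mul_one, smul_eq_mul,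
          sub_zero]
      rw [h1, ← htr]
      ring
    · intro φ
      rw [sum_insert hj]
      have e1 : P * pp A B j * (P * pp A B j) = P * pp A B j := by
        calc P * pp A B j * (P * pp A B j) = P * (pp A B j * P) * pp A B j := by
              simp only [mul_assoc]
          _ = (P * P) * (pp A B j * pp A B j) := by rw [hp]; simp only [mul_assoc]
          _ = P * pp A B j := by rw [hPP, pp_idem h]
      have e2 : normSq (pp A B j *ᵥ φ) - normSq ((P * pp A B j) *ᵥ φ) ≤ normSq φ - normSq (P *ᵥ φ) := by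
        rw [← Matrix.mulVec_mulVec, pyth hP hPP, pyth hP hPP φ, Matrix.mulVec_mulVec]
        have : (1 - P) * pp A B j = pp A B j * (1 - P) := by
          rw [sub_mul, mul_sub, hp, one_mul, mul_one]
        rw [this, ← Matrix.mulVec_mulVec]
        exact proj_le (pp_herm h j) (pp_idem h j) _
      linarith [hn φ]

/-- a Hermitian idempotent of trace one -/
theorem rank_one {P : Matrix n n ℂ} (h : P.IsHermitian) (h2 : P * P = P) (htr : P.trace = 1) :
    ∃ Ψ : n → ℂ, normSq Ψ = 1 ∧ P *ᵥ Ψ = Ψ ∧ ∀ φ, P *ᵥ φ = ip Ψ φ • Ψ := by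
  classical
  have hcol : ∀ t, normSq (P *ᵥ Pi.single t 1) = (P t t).re := by
    intro t
    rw [← ip_proj h h2]
    congr 1
    rw [ip_dot]
    simp
  have hsum : ∑ t, normSq (P *ᵥ Pi.single t 1) = 1 := by
    simp only [hcol]
    have := congrArg Complex.re htr
    unfold Matrix.trace at this
    rw [Complex.re_sum] at this
    simpa using this
  obtain ⟨t, ht⟩ : ∃ t, 0 < normSq (P *ᵥ Pi.single t (1 : ℂ)) := by
    by_contra hcon
    push Not at hcon
    have : ∑ t, normSq (P *ᵥ Pi.single t (1 : ℂ)) ≤ 0 := Finset.sum_nonpos fun t _ => hcon t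
    linarith
  set x := P *ᵥ Pi.single t (1 : ℂ) with hx
  set c : ℝ := (Real.sqrt (normSq x))⁻¹ with hc
  have hΨ : normSq ((c : ℂ) • x) = 1 := by
    rw [normSq_smul]
    rw [Complex.norm_real, Real.norm_eq_abs, sq_abs, hc, inv_pow, Real.sq_sqrt ht.le]
    exact inv_mul_cancel₀ ht.ne'
  have hPΨ : P *ᵥ ((c : ℂ) • x) = (c : ℂ) • x := by
    rw [Matrix.mulVec_smul, hx, Matrix.mulVec_mulVec, h2]
  set Ψ := (c : ℂ) • x with hΨd
  set Q : Matrix n n ℂ := P - Matrix.vecMulVec Ψ (star Ψ) with hQ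
  have hdot : star Ψ ⬝ᵥ Ψ = 1 := by
    rw [← ip_dot, ip_self, hΨ]
    simp
  have hV : (Matrix.vecMulVec Ψ (star Ψ)).IsHermitian := by
    unfold Matrix.IsHermitian
    rw [Matrix.conjTranspose_vecMulVec, star_star]
  have hQh : Q.IsHermitian := h.sub hV
  have hPV : P * Matrix.vecMulVec Ψ (star Ψ) = Matrix.vecMulVec Ψ (star Ψ) := by
    rw [Matrix.mul_vecMulVec, hPΨ]
  have hVP : Matrix.vecMulVec Ψ (star Ψ) * P = Matrix.vecMulVec Ψ (star Ψ) := by
    have := congrArg Matrix.conjTranspose hPV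
    rw [Matrix.conjTranspose_mul, h.eq, hV.eq] at this
    exact this
  have hVV : Matrix.vecMulVec Ψ (star Ψ) * Matrix.vecMulVec Ψ (star Ψ) = Matrix.vecMulVec Ψ (star Ψ) := by
    rw [Matrix.vecMulVec_mul_vecMulVec, hdot, one_smul]
  have hQQ : Q * Q = Q := by
    rw [hQ, sub_mul, mul_sub, mul_sub, h2, hPV, hVP, hVV]
    abel
  have hQt : Q.trace = 0 := by
    rw [hQ, Matrix.trace_sub, htr, Matrix.trace_vecMulVec, dotProduct_comm, hdot, sub_self]
  have hQ0 : Q = 0 := by
    open scoped ComplexOrder in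
    rw [← Matrix.trace_conjTranspose_mul_self_eq_zero_iff, hQh.eq, hQQ, hQt]
  refine ⟨Ψ, hΨ, hPΨ, fun φ => ?_⟩
  have : P = Matrix.vecMulVec Ψ (star Ψ) := by
    rw [hQ] at hQ0
    exact sub_eq_zero.mp hQ0
  rw [this, Matrix.vecMulVec_mulVec, ip_dot]
  simp

end Pool.Agent.Q298.PL
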