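import Pool.Agent.Q298.PL.Bas

/-! The shift matrix. -/

set_option autoImplicit false

open scoped BigOperators Matrix
open Finset Pool.Agent.TH235.PP Pool.Agent.Q234.PL

namespace Pool.Agent.Q298.PL.RO

lemma pow_entry (N : ℕ) (ε : ℝ) (n : ℕ) : ∀ i j : Fin (N + 1), (shiftM N ε ^ n) i j =
    if ((j : ℕ) + n) % (N + 1) = (i : ℕ) then ε ^ (((j : ℕ) + n) / (N + 1)) else 0 := by
  induction n with
  | zero =>
    intro i j
    rw [pow_zero, Matrix.one_apply]
    have h1 : ((j : ℕ) + 0) % (N + 1) = (j : ℕ) := by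
      rw [add_zero]; exact Nat.mod_eq_of_lt j.2
    have h2 : ((j : ℕ) + 0) / (N + 1) = 0 := by
      rw [add_zero]; exact Nat.div_eq_of_lt j.2
    rw [h1, h2, pow_zero]
    by_cases h : i = j
    · rw [if_pos h, if_pos (by rw [h])]
    · rw [if_neg h, if_neg (fun h' => h (Fin.ext h'.symm))]
  | succ n ih =>
    intro i j
    rw [pow_succ', Matrix.mul_apply]
    set a : ℕ := (j : ℕ) + n with ha
    set k : Fin (N + 1) := ⟨a % (N + 1), Nat.mod_lt _ (Nat.succ_pos _)⟩ with hk
    rw [Finset.sum_eq_single k]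
    · rw [ih, if_pos rfl]
      have hk1 : ((k + 1 : Fin (N + 1)) : ℕ) = (a + 1) % (N + 1) := by
        rw [Fin.val_add, hk]
        simp [Nat.add_mod]
      have e : (j : ℕ) + (n + 1) = a + 1 := by rw [ha]; ring
      rw [e]
      have hs : shiftM N ε i k = if i = k + 1 then (if i = 0 then ε else 1) else 0 := rfl
      rw [hs]
      by_cases hi : i = k + 1
      · have hiv : (a + 1) % (N + 1) = (i : ℕ) := by rw [hi, hk1]
        rw [if_pos hi]
        conv_rhs => rw [if_pos hiv]
        by_cases h0 : i = 0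
        · have hdvd : N + 1 ∣ a + 1 := by
            rw [Nat.dvd_iff_mod_eq_zero, hiv, h0]
            rfl
          rw [if_pos h0, Nat.succ_div, if_pos hdvd, pow_succ, mul_comm]
        · have hdvd : ¬ N + 1 ∣ a + 1 := by
            rw [Nat.dvd_iff_mod_eq_zero, hiv]
            intro h
            exact h0 (Fin.ext h)
          rw [if_neg h0, Nat.succ_div, if_neg hdvd, one_mul, add_zero]
      · rw [if_neg hi, zero_mul]
        conv_rhs => rw [if_neg (fun h => hi (Fin.ext (by rw [hk1, h])))]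
    · intro b _ hb
      rw [ih, if_neg, mul_zero]
      intro h
      apply hb
      apply Fin.ext
      rw [hk]
      exact h.symm
    · intro h
      exact absurd (mem_univ _) h

lemma abs_entry {N : ℕ} {ε : ℝ} (hε : ε = 1 ∨ ε = -1) (n : ℕ) (i j : Fin (N + 1)) :
    |(shiftM N ε ^ n) i j| ≤ 1 := by
  rw [pow_entry]
  have : |ε| = 1 := by rcases hε with h | h <;> rw [h] <;> simp
  split_ifs
  · rw [abs_pow, this, one_pow]
  · simp

lemma shift_tr_mul {N : ℕ} {ε : ℝ} (hε : ε = 1 ∨ ε = -1) : (shiftM N ε)ᵀ * shiftM N ε = 1 := by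
  ext i j
  rw [Matrix.mul_apply, Matrix.one_apply]
  simp only [Matrix.transpose_apply]
  unfold shiftM
  have hε2 : ε * ε = 1 := by rcases hε with h | h <;> rw [h] <;> norm_num
  rw [Finset.sum_eq_single (i + 1)]
  · rw [if_pos rfl]
    by_cases h : i = j
    · subst h
      rw [if_pos rfl, if_pos rfl]
      split_ifs
      · exact hε2
      · norm_num
    · have h2 : ¬ (i + 1 = j + 1) := fun h' => h (add_right_cancel h')
      rw [if_neg h, if_neg h2, mul_zero]
  · intro b _ hb
    rw [if_neg hb, zero_mul]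
  · intro h
    exact absurd (mem_univ _) h

lemma mul_shift_tr {N : ℕ} {ε : ℝ} (hε : ε = 1 ∨ ε = -1) : shiftM N ε * (shiftM N ε)ᵀ = 1 :=
  mul_eq_one_comm.mp (shift_tr_mul hε)

end Pool.Agent.Q298.PL.RO
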